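import Mathlib

open Set Filter Topology

namespace Pool.Helper824.HR

variable {E : Type*} [NormedAddCommGroup E] [InnerProductSpace ℝ E]

/-- `F` is continuous and increases at unit speed in the direction `e`
(so `F = 0` is the graph of a continuous function over a complement of `e`). -/
structure Gr (e : E) (F : E → ℝ) : Prop where
  cont : Continuous F
  tr : ∀ (p : E) (s : ℝ), F (p + s • e) = F p + s

/-- The cone of directions in which `F` never decreases. -/
def VC (F : E → ℝ) : Set E := {v | ∀ p : E, ∀ t : ℝ, 0 ≤ t → F p ≤ F (p + t • v)}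

/-- `L` is the linear part of an affine self-map of the zero set of `F`. -/
def SM (F : E → ℝ) (L : E ≃L[ℝ] E) : Prop := ∃ b : E, ∀ v, F v = 0 ↔ F (L v + b) = 0

variable {e : E} {F : E → ℝ}

theorem SM.mul {L M : E ≃L[ℝ] E} (hL : SM F L) (hM : SM F M) : SM F (L * M) := by
  obtain ⟨b, hb⟩ := hL
  obtain ⟨d, hd⟩ := hM
  refine ⟨L d + b, fun v => ?_⟩
  rw [hd v, hb (M v + d), map_add, add_assoc]
  rfl

theorem SM.inv {L : E ≃L[ℝ] E} (hL : SM F L) : SM F L⁻¹ := by
  obtain ⟨b, hb⟩ := hL
  refine ⟨-(L⁻¹ b), fun v => ?_⟩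
  have h1 : ∀ x, L (L⁻¹ x) = x := fun x => L.apply_symm_apply x
  rw [hb (L⁻¹ v + -(L⁻¹ b)), map_add, map_neg, h1, h1]
  simp

theorem Gr.tr_sub (hF : Gr e F) (p : E) (s : ℝ) : F (p - s • e) = F p - s := by
  have h := hF.tr p (-s)
  rw [neg_smul, ← sub_eq_add_neg] at h
  rw [h]; ring

theorem VC.add {v w : E} (hv : v ∈ VC F) (hw : w ∈ VC F) : v + w ∈ VC F := by
  intro p t ht
  rw [smul_add, ← add_assoc]
  exact (hv p t ht).trans (hw _ t ht)

theorem VC.smul {v : E} (hv : v ∈ VC F) {a : ℝ} (ha : 0 ≤ a) : a • v ∈ VC F := by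
  intro p t ht
  rw [smul_smul]
  exact hv p _ (mul_nonneg ht ha)

theorem VC.closed (hF : Gr e F) : IsClosed (VC F) := by
  have : VC F = ⋂ p : E, ⋂ t : ℝ, ⋂ _ : 0 ≤ t, {v | F p ≤ F (p + t • v)} := by
    ext v
    simp [VC]
  rw [this]
  refine isClosed_iInter fun p => isClosed_iInter fun t => isClosed_iInter fun _ => ?_
  exact isClosed_le continuous_const (hF.cont.comp (by fun_prop))

theorem VC.e_mem (hF : Gr e F) : e ∈ VC F := by
  intro p t ht
  rw [hF.tr]
  linarith

theorem VC.smul_e (hF : Gr e F) {s : ℝ} (h : s • e ∈ VC F) : 0 ≤ s := by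
  have := h 0 1 zero_le_one
  rw [one_smul, hF.tr] at this
  linarith

theorem VC.iff_pos (hF : Gr e F) {v : E} :
    v ∈ VC F ↔ ∀ p : E, ∀ t : ℝ, 0 ≤ t → 0 ≤ F p → 0 ≤ F (p + t • v) := by
  constructor
  · intro h p t ht hp
    exact hp.trans (h p t ht)
  · intro h p t ht
    have h1 := h (p - F p • e) t ht (by rw [hF.tr_sub]; linarith)
    have h2 : p - F p • e + t • v = (p + t • v) - F p • e := by abel
    rw [h2, hF.tr_sub] at h1
    linarith

theorem VC.iff_neg (hF : Gr e F) {v : E} :
    v ∈ VC F ↔ ∀ p : E, ∀ t : ℝ, 0 ≤ t → F p ≤ 0 → F (p - t • v) ≤ 0 := by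
  constructor
  · intro h p t ht hp
    have h1 := h (p - t • v) t ht
    rw [sub_add_cancel] at h1
    exact h1.trans hp
  · intro h p t ht
    have h1 := h (p + t • v - F (p + t • v) • e) t ht (by rw [hF.tr_sub]; linarith)
    have h2 : p + t • v - F (p + t • v) • e - t • v = p - F (p + t • v) • e := by abel
    rw [h2, hF.tr_sub] at h1
    linarith

theorem preconn_pos (hF : Gr e F) : IsPreconnected {p : E | 0 < F p} := by
  have : {p : E | 0 < F p} = (fun q : E × ℝ => q.1 + (q.2 - F q.1) • e) '' (univ ×ˢ Ioi 0) := by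
    ext p
    constructor
    · intro hp
      refine ⟨(p, F p), ⟨mem_univ _, hp⟩, ?_⟩
      simp
    · rintro ⟨⟨q, s⟩, ⟨_, hs⟩, rfl⟩
      simp only [mem_ofPred_eq]
      rw [hF.tr]
      simp only [mem_Ioi] at hs
      linarith
  rw [this]
  refine (isPreconnected_univ.prod isPreconnected_Ioi).image _ (Continuous.continuousOn ?_)
  have := hF.cont
  fun_prop

theorem preconn_neg (hF : Gr e F) : IsPreconnected {p : E | F p < 0} := by
  have : {p : E | F p < 0} = (fun q : E × ℝ => q.1 + (q.2 - F q.1) • e) '' (univ ×ˢ Iio 0) := by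
    ext p
    constructor
    · intro hp
      refine ⟨(p, F p), ⟨mem_univ _, hp⟩, ?_⟩
      simp
    · rintro ⟨⟨q, s⟩, ⟨_, hs⟩, rfl⟩
      simp only [mem_ofPred_eq]
      rw [hF.tr]
      simp only [mem_Iio] at hs
      linarith
  rw [this]
  refine (isPreconnected_univ.prod isPreconnected_Iio).image _ (Continuous.continuousOn ?_)
  have := hF.cont
  fun_prop

omit [InnerProductSpace ℝ E] in
theorem sign_const {S : Set E} (hS : IsPreconnected S) {G : E → ℝ} (hG : Continuous G)
    (h0 : ∀ v ∈ S, G v ≠ 0) : (∀ v ∈ S, 0 < G v) ∨ (∀ v ∈ S, G v < 0) := by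
  by_contra hcon
  push Not at hcon
  obtain ⟨⟨x, hx, hx'⟩, ⟨y, hy, hy'⟩⟩ := hcon
  obtain ⟨z, hz, hz'⟩ := hS.intermediate_value hx hy hG.continuousOn ⟨hx', hy'⟩
  exact h0 z hz hz'

theorem sign_or (hF : Gr e F) {L : E ≃L[ℝ] E} {b : E} (h : ∀ v, F v = 0 ↔ F (L v + b) = 0) :
    (∀ v, 0 ≤ F v ↔ 0 ≤ F (L v + b)) ∨ (∀ v, 0 ≤ F v ↔ F (L v + b) ≤ 0) := by
  have hG : Continuous (fun v => F (L v + b)) := hF.cont.comp (by fun_prop)
  have h1 := sign_const (preconn_pos hF) hG (fun v hv h0 => (ne_of_gt hv) ((h v).2 h0))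
  have h2 := sign_const (preconn_neg hF) hG (fun v hv h0 => (ne_of_lt hv) ((h v).2 h0))
  have hsur : ∀ s : ℝ, ∃ v, F (L v + b) = s := by
    intro s
    refine ⟨L.symm ((0 + (s - F 0) • e) - b), ?_⟩
    rw [L.apply_symm_apply, sub_add_cancel, hF.tr]
    ring
  rcases h1 with h1 | h1 <;> rcases h2 with h2 | h2
  · exfalso
    obtain ⟨v, hv⟩ := hsur (-1)
    rcases lt_trichotomy (F v) 0 with h3 | h3 | h3
    · have := h2 v h3; linarith
    · have := (h v).1 h3; linarith
    · have := h1 v h3; linarith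
  · left
    intro v
    rcases lt_trichotomy (F v) 0 with h3 | h3 | h3
    · have := h2 v h3
      constructor <;> intro h4 <;> linarith
    · have := (h v).1 h3
      constructor <;> intro h4 <;> linarith
    · have := h1 v h3
      constructor <;> intro h4 <;> linarith
  · right
    intro v
    rcases lt_trichotomy (F v) 0 with h3 | h3 | h3
    · have := h2 v h3
      constructor <;> intro h4 <;> linarith
    · have := (h v).1 h3
      constructor <;> intro h4 <;> linarith
    · have := h1 v h3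
      constructor <;> intro h4 <;> linarith
  · exfalso
    obtain ⟨v, hv⟩ := hsur 1
    rcases lt_trichotomy (F v) 0 with h3 | h3 | h3
    · have := h2 v h3; linarith
    · have := (h v).1 h3; linarith
    · have := h1 v h3; linarith

/-- A self-map acts on the cone up to a sign. -/
theorem SM.cone (hF : Gr e F) {L : E ≃L[ℝ] E} (hL : SM F L) :
    ∃ ε : ℝ, (ε = 1 ∨ ε = -1) ∧ ∀ v, v ∈ VC F ↔ ε • L v ∈ VC F := by
  obtain ⟨b, hb⟩ := hL
  rcases sign_or hF hb with h | h
  · refine ⟨1, Or.inl rfl, fun v => ?_⟩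
    rw [one_smul]
    constructor
    · intro hv
      rw [VC.iff_pos hF] at hv ⊢
      intro p t ht hp
      have hp' : L (L.symm (p - b)) + b = p := by simp
      rw [← hp'] at hp
      have h1 := (h _).1 (hv _ t ht ((h _).2 hp))
      have h2 : L (L.symm (p - b) + t • v) + b = p + t • L v := by
        rw [map_add, map_smul, L.apply_symm_apply]; abel
      rwa [h2] at h1
    · intro hv
      rw [VC.iff_pos hF] at hv ⊢
      intro p t ht hp
      rw [h] at hp ⊢
      have h1 := hv _ t ht hp
      have h2 : L (p + t • v) + b = L p + b + t • L v := by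
        rw [map_add, map_smul]; abel
      rwa [h2]
  · refine ⟨-1, Or.inr rfl, fun v => ?_⟩
    constructor
    · intro hv
      rw [VC.iff_pos hF] at hv
      rw [VC.iff_neg hF]
      intro p t ht hp
      have hp' : L (L.symm (p - b)) + b = p := by simp
      rw [← hp'] at hp
      have h1 := (h _).1 (hv _ t ht ((h _).2 hp))
      have h2 : L (L.symm (p - b) + t • v) + b = p - t • ((-1 : ℝ) • L v) := by
        rw [map_add, map_smul, L.apply_symm_apply, smul_smul]
        simp only [mul_neg, mul_one, neg_smul]; abel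
      rwa [h2] at h1
    · intro hv
      rw [VC.iff_neg hF] at hv
      rw [VC.iff_pos hF]
      intro p t ht hp
      rw [h] at hp ⊢
      have h1 := hv _ t ht hp
      have h2 : L (p + t • v) + b = L p + b - t • ((-1 : ℝ) • L v) := by
        rw [map_add, map_smul, smul_smul]
        simp only [mul_neg, mul_one, neg_smul]; abel
      rwa [h2]

/-- A self-map contracting horizontally and not contracting vertically forces `F` to be trivial. -/
theorem lemmaZ [CompleteSpace E] (hF : Gr e F) (he : ‖e‖ = 1) {W : E ≃L[ℝ] E} (hW : SM F W)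
    {σ ρ : ℝ} (hσ : 1 ≤ |σ|) (hρ0 : 0 ≤ ρ) (hρ : ρ < 1) (hWe : W e = σ • e)
    (hperp : ∀ v, inner ℝ e v = 0 → inner ℝ e (W v) = 0 ∧ ‖W v‖ ≤ ρ * ‖v‖) :
    ∃ k : ℝ, ∀ p, F p = inner ℝ e p + k := by
  obtain ⟨b, hb⟩ := hW
  have hee : inner ℝ e e = (1 : ℝ) := by rw [real_inner_self_eq_norm_sq, he]; norm_num
  set f : E → ℝ := fun p => inner ℝ e p - F p with hf
  have hfc : Continuous f := by
    have := hF.cont
    simp only [hf]; fun_prop
  have hfe : ∀ (p : E) (s : ℝ), f (p + s • e) = f p := by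
    intro p s
    simp only [hf]
    rw [hF.tr, inner_add_right, inner_smul_right, hee]; ring
  -- projection
  set Q : E → E := fun p => p - (inner ℝ e p : ℝ) • e with hQ
  have hQp : ∀ p, inner ℝ e (Q p) = (0 : ℝ) := by
    intro p
    simp only [hQ]
    rw [inner_sub_right, inner_smul_right, hee]; simp
  have hWin : ∀ p, inner ℝ e (W p) = σ * inner ℝ e p := by
    intro p
    have h1 : p = Q p + (inner ℝ e p : ℝ) • e := by simp [hQ]
    conv_lhs => rw [h1]
    rw [map_add, map_smul, hWe, inner_add_right, (hperp _ (hQp p)).1, inner_smul_right,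
      inner_smul_right, hee]
    ring
  have hfW : ∀ p, f (W p + b) = σ * f p + inner ℝ e b := by
    have key : ∀ p, F p = 0 → f (W p + b) = σ * f p + inner ℝ e b := by
      intro p hp
      have h1 := (hb p).1 hp
      simp only [hf]
      rw [h1, hp, inner_add_right, hWin]; ring
    intro p
    have h1 := key (p + (-F p) • e) (by rw [hF.tr]; ring)
    rw [hfe, map_add, map_smul, hWe, smul_smul] at h1
    have h2 : W p + (-F p * σ) • e + b = (W p + b) + (-F p * σ) • e := by abel
    rw [h2, hfe] at h1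
    exact h1
  -- the contraction
  set T : E → E := fun p => W (Q p) + Q b with hT
  have hfT : ∀ p, f (T p) = σ * f p + inner ℝ e b := by
    intro p
    rw [← hfW p]
    have h1 : W p + b = T p + (inner ℝ e p * σ + inner ℝ e b) • e := by
      simp only [hT, hQ]
      rw [map_sub, map_smul, hWe, smul_smul, add_smul]
      abel
    rw [h1, hfe]
  have hQnorm : ∀ p, ‖Q p‖ ≤ ‖p‖ := by
    intro p
    have h1 : ‖Q p‖ ^ 2 ≤ ‖p‖ ^ 2 := by
      simp only [hQ]
      rw [norm_sub_sq_real, inner_smul_right, norm_smul, he, real_inner_comm p e]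
      rw [Real.norm_eq_abs, mul_one, sq_abs]
      nlinarith [sq_nonneg (inner ℝ e p : ℝ)]
    exact le_of_sq_le_sq h1 (norm_nonneg _)
  have hTc : ContractingWith (⟨ρ, hρ0⟩ : NNReal) T := by
    refine ⟨by exact_mod_cast hρ, LipschitzWith.of_dist_le_mul fun x y => ?_⟩
    rw [dist_eq_norm, dist_eq_norm]
    have h1 : T x - T y = W (Q (x - y)) := by
      simp only [hT, hQ]
      rw [inner_sub_right, sub_smul]
      simp only [map_sub]
      abel
    rw [h1]
    refine (hperp _ (hQp _)).2.trans ?_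
    exact mul_le_mul_of_nonneg_left (hQnorm _) hρ0
  haveI : Nonempty E := ⟨0⟩
  set x₀ := ContractingWith.fixedPoint T hTc with hx₀
  have hfix : T x₀ = x₀ := hTc.fixedPoint_isFixedPt
  have hfx : f x₀ = σ * f x₀ + inner ℝ e b := by
    have := hfT x₀
    rwa [hfix] at this
  have hiter : ∀ n p, f (T^[n] p) - f x₀ = σ ^ n * (f p - f x₀) := by
    intro n
    induction n with
    | zero => intro p; simp
    | succ n ih =>
      intro p
      rw [Function.iterate_succ_apply, ih (T p), hfT p, pow_succ]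
      have : σ * f p + inner ℝ e b - f x₀ = σ * (f p - f x₀) := by linarith
      rw [this]; ring
  have hconst : ∀ p, f p = f x₀ := by
    intro p
    have h1 : Tendsto (fun n => |f (T^[n] p) - f x₀|) atTop (𝓝 |f x₀ - f x₀|) := by
      have h2 := hTc.tendsto_iterate_fixedPoint p
      exact ((hfc.tendsto x₀).comp h2).sub_const _ |>.abs
    rw [sub_self, abs_zero] at h1
    have h2 : |f p - f x₀| ≤ 0 := by
      refine ge_of_tendsto' h1 fun n => ?_
      rw [hiter, abs_mul, abs_pow]
      have := one_le_pow₀ hσ (n := n)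
      nlinarith [abs_nonneg (f p - f x₀)]
    have h3 := abs_nonpos_iff.1 h2
    linarith
  refine ⟨-f x₀, fun p => ?_⟩
  have := hconst p
  simp only [hf] at this ⊢
  linarith

end Pool.Helper824.HR
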