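import Pool.Agent.Helper824_hr.Slice

open Set Filter Topology MeasureTheory Real
open scoped ENNReal

namespace Pool.Helper824.HR

variable {E : Type*} [NormedAddCommGroup E] [InnerProductSpace ℝ E]

/-- horizontal dilation by `c`, the direction `e` being kept. -/
noncomputable def dl (e : E) (c : ℝ) (v : E) : E := c • v + ((1 - c) * inner ℝ e v) • e

theorem dl_add (e : E) (c : ℝ) (v w : E) : dl e c (v + w) = dl e c v + dl e c w := by
  unfold dl
  rw [inner_add_right, mul_add, add_smul, smul_add]; abel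

theorem dl_smul (e : E) (c a : ℝ) (v : E) : dl e c (a • v) = a • dl e c v := by
  unfold dl
  rw [inner_smul_right, smul_add, smul_smul, smul_smul, smul_smul]
  congr 2 <;> ring

theorem inner_dl {e : E} (he : ‖e‖ = 1) (c : ℝ) (v : E) : inner ℝ e (dl e c v) = inner ℝ e v := by
  have hee : inner ℝ e e = (1 : ℝ) := by rw [real_inner_self_eq_norm_sq, he]; norm_num
  unfold dl
  rw [inner_add_right, inner_smul_right, inner_smul_right, hee]; ring

theorem dl_dl {e : E} (he : ‖e‖ = 1) (a b : ℝ) (v : E) : dl e a (dl e b v) = dl e (a * b) v := by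
  conv_lhs => rw [dl, inner_dl he]
  unfold dl
  rw [smul_add, smul_smul, smul_smul, add_assoc, ← add_smul]
  congr 2; ring

theorem dl_one (e : E) (v : E) : dl e 1 v = v := by
  unfold dl; simp

theorem dl_self {e : E} (he : ‖e‖ = 1) (c : ℝ) : dl e c e = e := by
  have hee : inner ℝ e e = (1 : ℝ) := by rw [real_inner_self_eq_norm_sq, he]; norm_num
  unfold dl
  rw [hee, ← add_smul]; simp

theorem dl_perp {e : E} (c : ℝ) {v : E} (hv : inner ℝ e v = 0) : dl e c v = c • v := by
  unfold dl; rw [hv]; simp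

theorem dl_inv {e : E} (he : ‖e‖ = 1) {c : ℝ} (hc : c ≠ 0) (v : E) : dl e c (dl e c⁻¹ v) = v := by
  rw [dl_dl he, mul_inv_cancel₀ hc, dl_one]

theorem dl_inv' {e : E} (he : ‖e‖ = 1) {c : ℝ} (hc : c ≠ 0) (v : E) : dl e c⁻¹ (dl e c v) = v := by
  rw [dl_dl he, inv_mul_cancel₀ hc, dl_one]

theorem dl_adj (e : E) (c : ℝ) (v w : E) : inner ℝ (dl e c v) w = inner ℝ v (dl e c w) := by
  unfold dl
  rw [inner_add_left, inner_add_right, inner_smul_left, inner_smul_left, inner_smul_right,
    inner_smul_right, real_inner_comm v e]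
  simp only [conj_trivial]
  ring

/-- closed convex cone -/
structure CC (V : Set E) : Prop where
  closed : IsClosed V
  add : ∀ v ∈ V, ∀ w ∈ V, v + w ∈ V
  smul : ∀ v ∈ V, ∀ a : ℝ, 0 ≤ a → a • v ∈ V

/-- dual cone -/
def dualC (V : Set E) : Set E := {w | ∀ v ∈ V, 0 ≤ inner ℝ v w}

theorem dualC_closed (V : Set E) : IsClosed (dualC V) := by
  have : dualC V = ⋂ v ∈ V, {w | 0 ≤ (inner ℝ v w : ℝ)} := by
    ext w; simp [dualC]
  rw [this]
  refine isClosed_biInter fun v _ => isClosed_le continuous_const (by fun_prop)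

theorem dualC_add {V : Set E} {v w : E} (hv : v ∈ dualC V) (hw : w ∈ dualC V) :
    v + w ∈ dualC V := by
  intro x hx
  rw [inner_add_right]
  exact add_nonneg (hv x hx) (hw x hx)

theorem dualC_smul {V : Set E} {v : E} (hv : v ∈ dualC V) {a : ℝ} (ha : 0 ≤ a) :
    a • v ∈ dualC V := by
  intro x hx
  rw [inner_smul_right]
  exact mul_nonneg ha (hv x hx)

theorem bipolar [CompleteSpace E] {V : Set E} (hV : CC V) (hne : V.Nonempty) {x : E}
    (hx : x ∉ V) : ∃ y ∈ dualC V, inner ℝ x y < 0 := by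
  obtain ⟨v0, hv0⟩ := hne
  have h0 : (0 : E) ∈ V := by simpa using hV.smul v0 hv0 0 le_rfl
  let C : ProperCone ℝ E :=
    { carrier := V
      add_mem' := fun {a b} ha hb => hV.add a ha b hb
      zero_mem' := h0
      smul_mem' := fun c v hv => hV.smul v hv c.1 c.2
      isClosed' := hV.closed }
  exact C.hyperplane_separation' (x₀ := x) hx

/-- pointed: the dual cone has interior points -/
theorem dual_interior [FiniteDimensional ℝ E] {V : Set E} (hV : CC V) (hne : V.Nonempty)
    (hp : ∀ v, v ∈ V → -v ∈ V → v = 0) : (interior (dualC V)).Nonempty := by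
  have hconv : Convex ℝ (dualC V) := by
    intro x hx y hy a b ha hb _
    exact dualC_add (dualC_smul hx ha) (dualC_smul hy hb)
  have h0 : (0 : E) ∈ dualC V := fun v _ => by simp
  rw [hconv.interior_nonempty_iff_affineSpan_eq_top,
    AffineSubspace.affineSpan_eq_top_iff_vectorSpan_eq_top_of_nonempty ℝ E E ⟨0, h0⟩]
  have h1 : Submodule.span ℝ (dualC V) ≤ vectorSpan ℝ (dualC V) := by
    rw [Submodule.span_le]
    intro w hw
    have := vsub_mem_vectorSpan ℝ hw h0
    simpa using this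
  rw [eq_top_iff]
  refine le_trans (ge_of_eq ?_) h1
  by_contra hcon
  have h2 : (Submodule.span ℝ (dualC V))ᗮ ≠ ⊥ := by
    intro h
    exact hcon ((Submodule.orthogonal_eq_bot_iff).1 h)
  obtain ⟨v, hv, hv0⟩ := (Submodule.ne_bot_iff _).1 h2
  have h3 : ∀ w ∈ dualC V, inner ℝ v w = (0 : ℝ) := by
    intro w hw
    exact (Submodule.mem_orthogonal' _ _).1 hv w (Submodule.subset_span hw)
  apply hv0
  apply hp
  · by_contra hvV
    obtain ⟨y, hy, hy'⟩ := bipolar hV hne hvV
    rw [h3 y hy] at hy'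
    exact lt_irrefl _ hy'
  · by_contra hvV
    obtain ⟨y, hy, hy'⟩ := bipolar hV hne hvV
    rw [inner_neg_left, h3 y hy] at hy'
    simp at hy'

/-- action on the dual cone -/
theorem dual_act {e : E} (he : ‖e‖ = 1) {c : ℝ} (hc : c ≠ 0) {V : Set E} {A : E ≃ₗᵢ[ℝ] E}
    (h : ∀ v, v ∈ V ↔ dl e c (A v) ∈ V) (u : E) :
    dl e c⁻¹ u ∈ dualC V ↔ A.symm u ∈ dualC V := by
  have key : ∀ w, w ∈ dualC V ↔ A.symm (dl e c w) ∈ dualC V := by
    intro w
    have h1 : ∀ v, inner ℝ v (A.symm (dl e c w)) = (inner ℝ (dl e c (A v)) w : ℝ) := by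
      intro v
      rw [dl_adj, ← A.inner_map_map, A.apply_symm_apply]
    constructor
    · intro hw v hv
      rw [h1]
      exact hw _ ((h v).1 hv)
    · intro hw v hv
      have h2 : dl e c (A (A.symm (dl e c⁻¹ v))) = v := by
        rw [A.apply_symm_apply, dl_inv he hc]
      have h3 : A.symm (dl e c⁻¹ v) ∈ V := by
        rw [h, h2]; exact hv
      have h4 := hw _ h3
      rwa [h1, h2] at h4
  rw [key, dl_inv he hc]

/-- A cone with `e` outside of the dual cone is impossible. -/
theorem alpha [FiniteDimensional ℝ E] {e : E} (he : ‖e‖ = 1) {V : Set E} (hV : CC V)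
    (heV : e ∈ V) (hp : ∀ v, v ∈ V → -v ∈ V → v = 0) {c₁ c₂ : ℝ} (hc₁ : 0 < c₁) (hc₂ : 0 < c₂)
    (h1 : c₁ ≠ 1) (h2 : c₂ ≠ 1) (h12 : c₁ ≠ c₂) {A₁ A₂ : E ≃ₗᵢ[ℝ] E}
    (hA₁ : ∀ v, v ∈ V ↔ dl e c₁ (A₁ v) ∈ V) (hA₂ : ∀ v, v ∈ V ↔ dl e c₂ (A₂ v) ∈ V) :
    e ∈ dualC V := by
  by_contra hcon
  let _ : MeasurableSpace E := borel E
  have _ : BorelSpace E := ⟨rfl⟩
  have hee : inner ℝ e e = (1 : ℝ) := by rw [real_inner_self_eq_norm_sq, he]; norm_num
  set W := dualC V with hW
  let H : Submodule ℝ E := (Submodule.span ℝ {e})ᗮ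
  have hH : ∀ x : H, inner ℝ e (x : E) = (0 : ℝ) := by
    intro x
    exact (Submodule.mem_orthogonal _ _).1 x.2 e (Submodule.mem_span_singleton_self e)
  -- the splitting
  let Tl : (H × ℝ) ≃ₗ[ℝ] E :=
    { toFun := fun p => (p.1 : E) + p.2 • e
      map_add' := by
        intro p q
        simp only [Prod.fst_add, Prod.snd_add, Submodule.coe_add, add_smul]
        abel
      map_smul' := by
        intro a p
        simp only [Prod.smul_fst, Prod.smul_snd, Submodule.coe_smul, smul_add, smul_smul,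
          RingHom.id_apply, smul_eq_mul]
      invFun := fun u => (⟨u - (inner ℝ e u : ℝ) • e, by
        rw [Submodule.mem_orthogonal_singleton_iff_inner_right, inner_sub_right,
          inner_smul_right, hee]
        ring⟩, inner ℝ e u)
      left_inv := by
        intro p
        have h3 : inner ℝ e ((p.1 : E) + p.2 • e) = p.2 := by
          rw [inner_add_right, hH, inner_smul_right, hee]; ring
        ext
        · simp only [h3]; simp
        · exact h3
      right_inv := by
        intro u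
        simp }
  let T : (H × ℝ) ≃L[ℝ] E := Tl.toContinuousLinearEquiv
  have hT : ∀ p : H × ℝ, T p = (p.1 : E) + p.2 • e := fun p => rfl
  have hTn : ∀ p : H × ℝ, ‖T p‖ ^ 2 = ‖p.1‖ ^ 2 + p.2 ^ 2 := by
    intro p
    rw [hT, norm_add_sq_real, inner_smul_right, real_inner_comm, hH, norm_smul, he]
    simp
  have hTin : ∀ p : H × ℝ, inner ℝ e (T p) = p.2 := by
    intro p
    rw [hT, inner_add_right, hH, inner_smul_right, hee]; ring
  have hTdl : ∀ (a : ℝ) (p : H × ℝ), dl e a (T p) = T (a • p.1, p.2) := by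
    intro a p
    unfold dl
    rw [hTin, hT, hT]
    simp only [Submodule.coe_smul, smul_add, smul_smul]
    rw [add_assoc, ← add_smul]
    congr 2; ring
  set K : Set (H × ℝ) := T ⁻¹' W with hK
  have hKc : IsClosed K := (dualC_closed V).preimage T.continuous
  have hKadd : ∀ p ∈ K, ∀ q ∈ K, p + q ∈ K := by
    intro p hp q hq
    change T (p + q) ∈ W
    rw [map_add]
    exact dualC_add hp hq
  have hKsmul : ∀ p ∈ K, ∀ a : ℝ, 0 < a → a • p ∈ K := by
    intro p hp a ha
    change T (a • p) ∈ W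
    rw [map_smul]
    exact dualC_smul hp ha.le
  have hK0 : ∀ p ∈ K, 0 ≤ p.2 := by
    intro p hp
    rw [← hTin p]
    exact hp e heV
  have hKe : ((0 : H), (1 : ℝ)) ∉ K := by
    intro h
    apply hcon
    have h3 : T ((0 : H), (1 : ℝ)) ∈ W := h
    rw [hT] at h3
    simpa using h3
  have hKi : (interior K).Nonempty := by
    obtain ⟨w, hw⟩ := dual_interior hV ⟨e, heV⟩ hp
    refine ⟨T.symm w, ?_⟩
    have h3 : T ⁻¹' (interior W) ⊆ interior K :=
      preimage_interior_subset_interior_preimage T.continuous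
    apply h3
    change T (T.symm w) ∈ interior W
    rw [T.apply_symm_apply]
    exact hw
  -- the measure
  set ν : Measure (H × ℝ) := (volume : Measure H).prod volume with hν
  set μ : Measure E := Measure.map T ν with hμ
  have : μ.IsAddHaarMeasure := T.isAddHaarMeasure_map ν
  have hJ : ∀ a : ℝ, Iw K a = ∫⁻ u : E, ((W.indicator 1 (dl e a⁻¹ u) : ℝ≥0∞) * wt u) ∂μ := by
    intro a
    have hemb : MeasurableEmbedding T := T.toHomeomorph.measurableEmbedding
    rw [hμ, hemb.lintegral_map]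
    unfold Iw
    refine lintegral_congr fun p => ?_
    rw [hTdl]
    unfold wt
    rw [hTn]
    rfl
  have hpres : ∀ R : E ≃ₗᵢ[ℝ] E, MeasurePreserving R μ μ := by
    intro R
    obtain ⟨b, hb⟩ : ∃ b : ℝ≥0∞, μ = b • (volume : Measure E) := by
      refine ⟨_, Measure.isAddLeftInvariant_eq_smul μ (volume : Measure E)⟩
    refine ⟨R.continuous.measurable, ?_⟩
    rw [hb, Measure.map_smul, (R.measurePreserving).map_eq]
  have hfin : ∀ (a : ℝ) (_ : 0 < a) (A : E ≃ₗᵢ[ℝ] E) (_ : ∀ v, v ∈ V ↔ dl e a (A v) ∈ V),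
      Iw K a = Iw K 1 := by
    intro a ha A hA
    rw [hJ, hJ]
    have h3 : ∀ u, (W.indicator 1 (dl e a⁻¹ u) : ℝ≥0∞) * wt u =
        (fun u => (W.indicator 1 u : ℝ≥0∞) * wt u) (A.symm u) := by
      intro u
      have h4 := dual_act he ha.ne' hA u
      have h5 : wt (A.symm u) = wt u := by
        unfold wt; rw [A.symm.norm_map]
      simp only
      rw [h5]
      congr 1
      by_cases h6 : A.symm u ∈ W
      · rw [indicator_of_mem h6, indicator_of_mem (h4.2 h6)]; rfl
      · rw [indicator_of_notMem h6, indicator_of_notMem (fun h7 => h6 (h4.1 h7))]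
    simp_rw [h3]
    rw [(hpres A.symm).lintegral_comp
      (f := fun u => (W.indicator 1 u : ℝ≥0∞) * wt u)]
    · refine lintegral_congr fun u => ?_
      rw [inv_one, dl_one]
    · exact (measurable_one.indicator (dualC_closed V).measurableSet).mul wt_meas
  exact slice_false hKc hKadd hKsmul hK0 hKe hKi hc₁ hc₂ h1 h2 h12
    (hfin c₁ hc₁ A₁ hA₁) (hfin c₂ hc₂ A₂ hA₂)

end Pool.Helper824.HR
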