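import Pool.Agent.Helper824_hr.Planar

open Set Filter Topology

namespace Pool.Helper824.HR

variable {E : Type*} [NormedAddCommGroup E] [InnerProductSpace ℝ E]

theorem exists_third [FiniteDimensional ℝ E] (h3 : Module.finrank ℝ E = 3) (a b : E) :
    ∃ u : E, ‖u‖ = 1 ∧ inner ℝ a u = (0 : ℝ) ∧ inner ℝ b u = (0 : ℝ) := by
  classical
  set K := Submodule.span ℝ ((({a, b} : Finset E) : Set E)) with hK
  have hKle : Module.finrank ℝ K ≤ 2 :=
    (finrank_span_finset_le_card ({a, b} : Finset E)).trans Finset.card_le_two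
  have hbot : Kᗮ ≠ ⊥ := by
    intro h
    rw [Submodule.orthogonal_eq_bot_iff] at h
    rw [h, finrank_top, h3] at hKle
    omega
  obtain ⟨w, hw, hw0⟩ := (Submodule.ne_bot_iff _).1 hbot
  have hwn : ‖w‖ ≠ 0 := norm_ne_zero_iff.2 hw0
  have h1 : ∀ x ∈ ({a, b} : Finset E), inner ℝ x w = (0 : ℝ) := by
    intro x hx
    exact (Submodule.mem_orthogonal _ _).1 hw x (Submodule.subset_span (by exact_mod_cast hx))
  refine ⟨‖w‖⁻¹ • w, ?_, ?_, ?_⟩
  · rw [norm_smul, norm_inv, norm_norm, inv_mul_cancel₀ hwn]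
  · rw [inner_smul_right, h1 a (by simp), mul_zero]
  · rw [inner_smul_right, h1 b (by simp), mul_zero]

/-- the linear map onto a plane -/
noncomputable def io (u n : E) : E2 →ₗ[ℝ] E where
  toFun q := q 0 • u + q 1 • n
  map_add' q r := by simp only [PiLp.add_apply, add_smul]; abel
  map_smul' a q := by simp only [PiLp.smul_apply, smul_eq_mul, smul_add, smul_smul, RingHom.id_apply]

/-- the projection -/
noncomputable def pj (u n : E) : E →ₗ[ℝ] E2 where
  toFun p := (inner ℝ u p : ℝ) • eu + (inner ℝ n p : ℝ) • en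
  map_add' p q := by simp only [inner_add_right, add_smul]; abel
  map_smul' a q := by
    simp only [inner_smul_right, smul_add, smul_smul, RingHom.id_apply]

theorem io_app (u n : E) (q : E2) : io u n q = q 0 • u + q 1 • n := rfl

theorem pj_app (u n p : E) : pj u n p = (inner ℝ u p : ℝ) • eu + (inner ℝ n p : ℝ) • en := rfl

theorem pj0 (u n p : E) : (pj u n p) 0 = inner ℝ u p := by
  rw [pj_app]; simp [eu, en]

theorem pj1 (u n p : E) : (pj u n p) 1 = inner ℝ n p := by
  rw [pj_app]; simp [eu, en]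

theorem pj_adj (u n p : E) (q : E2) : inner ℝ (pj u n p) q = (inner ℝ p (io u n q) : ℝ) := by
  rw [pj_app, io_app, inner_add_left, inner_smul_left, inner_smul_left, in_eu, in_en,
    inner_add_right, inner_smul_right, inner_smul_right, real_inner_comm p u, real_inner_comm p n]
  simp only [conj_trivial]
  ring

section
variable [FiniteDimensional ℝ E] {u n l : E}

theorem io_pj (h3 : Module.finrank ℝ E = 3) (hu : ‖u‖ = 1) (hn : ‖n‖ = 1) (hl : ‖l‖ = 1)
    (hun : inner ℝ u n = (0 : ℝ)) (hul : inner ℝ u l = (0 : ℝ)) (hnl : inner ℝ n l = (0 : ℝ))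
    (p : E) : p = io u n (pj u n p) + (inner ℝ l p : ℝ) • l := by
  rw [io_app, pj0, pj1]
  exact onb3 h3 hu hn hl hun hul hnl p

omit [FiniteDimensional ℝ E] in
theorem pj_io (hu : ‖u‖ = 1) (hn : ‖n‖ = 1) (hun : inner ℝ u n = (0 : ℝ)) (q : E2) :
    pj u n (io u n q) = q := by
  have huu : inner ℝ u u = (1 : ℝ) := by rw [real_inner_self_eq_norm_sq, hu]; norm_num
  have hnn : inner ℝ n n = (1 : ℝ) := by rw [real_inner_self_eq_norm_sq, hn]; norm_num
  have hnu : inner ℝ n u = (0 : ℝ) := by rw [real_inner_comm]; exact hun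
  ext i
  fin_cases i
  · change (pj u n (io u n q)) 0 = q 0
    rw [pj0, io_app, inner_add_right, inner_smul_right, inner_smul_right, huu, hun]; ring
  · change (pj u n (io u n q)) 1 = q 1
    rw [pj1, io_app, inner_add_right, inner_smul_right, inner_smul_right, hnu, hnn]; ring

/-- The induced planar self-map. -/
theorem cyl_PL2 (h3 : Module.finrank ℝ E = 3) (hu : ‖u‖ = 1) (hn : ‖n‖ = 1) (hl : ‖l‖ = 1)
    (hun : inner ℝ u n = (0 : ℝ)) (hul : inner ℝ u l = (0 : ℝ)) (hnl : inner ℝ n l = (0 : ℝ))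
    {e : E} {F : E → ℝ} (hinv : ∀ (p : E) (t : ℝ), F (p + t • l) = F p) {N κ c : ℝ} (hN : N ≠ 0)
    (hc : 0 < c) (hue : inner ℝ e u = (0 : ℝ)) (hdn : ‖dl e c n‖ = lam κ c)
    {A : E ≃ₗᵢ[ℝ] E} {L : E ≃L[ℝ] E} (hL : SM F L) (hLA : ∀ v, L v = dl e c (A v))
    {t : ℝ} (ht : t ≠ 0) (hLl : L l = t • l) :
    PL2 (fun q => F (io u n q) / N) κ c := by
  have hll := lam_pos κ c
  have hFpj : ∀ p, F (io u n (pj u n p)) = F p := by
    intro p
    conv_rhs => rw [io_pj h3 hu hn hl hun hul hnl p]
    rw [hinv]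
  have hpjl : pj u n l = 0 := by
    rw [pj_app, hul, hnl]; simp
  have hnn : inner ℝ n n = (1 : ℝ) := by rw [real_inner_self_eq_norm_sq, hn]; norm_num
  have hLil : L⁻¹ l = t⁻¹ • l := inv_eig ht hLl
  have hLio : ∀ p, pj u n (L (io u n (pj u n p))) = pj u n (L p) := by
    intro p
    conv_rhs => rw [io_pj h3 hu hn hl hun hul hnl p]
    rw [map_add, map_smul, hLl, map_add, map_smul, map_smul, hpjl]; simp
  have hLio' : ∀ p, pj u n (L⁻¹ (io u n (pj u n p))) = pj u n (L⁻¹ p) := by
    intro p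
    conv_rhs => rw [io_pj h3 hu hn hl hun hul hnl p]
    rw [map_add, map_smul, hLil, map_add, map_smul, map_smul, hpjl]; simp
  -- the map
  let Ml : E2 ≃ₗ[ℝ] E2 :=
    { toFun := fun q => pj u n (L (io u n q))
      map_add' := by intro q r; simp only [map_add]
      map_smul' := by intro a q; simp only [map_smul, RingHom.id_apply]
      invFun := fun q => pj u n (L⁻¹ (io u n q))
      left_inv := by
        intro q
        change pj u n (L⁻¹ (io u n (pj u n (L (io u n q))))) = q
        rw [hLio', inv_apply', pj_io hu hn hun]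
      right_inv := by
        intro q
        change pj u n (L (io u n (pj u n (L⁻¹ (io u n q))))) = q
        rw [hLio, inv_apply, pj_io hu hn hun] }
  let M : E2 ≃L[ℝ] E2 := Ml.toContinuousLinearEquiv
  have hM : ∀ q, M q = pj u n (L (io u n q)) := fun q => rfl
  -- the isometry
  set r₁ : E := A.symm u with hr₁
  set r₂ : E := (lam κ c)⁻¹ • A.symm (dl e c n) with hr₂
  have hdu : dl e c u = c • u := dl_perp c hue
  have hul' : ∀ p, inner ℝ u (L p) = c * (inner ℝ r₁ p : ℝ) := by
    intro p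
    rw [hLA, ← dl_adj, hdu, inner_smul_left, hr₁, ← A.inner_map_map (A.symm u),
      A.apply_symm_apply]
    simp
  have hnl' : ∀ p, inner ℝ n (L p) = lam κ c * (inner ℝ r₂ p : ℝ) := by
    intro p
    rw [hLA, ← dl_adj, hr₂, inner_smul_left, ← A.inner_map_map (A.symm (dl e c n)),
      A.apply_symm_apply]
    simp only [conj_trivial]
    rw [← mul_assoc, mul_inv_cancel₀ hll.ne', one_mul]
  have r1l : inner ℝ r₁ l = (0 : ℝ) := by
    have h := hul' l
    rw [hLl, inner_smul_right, hul, mul_zero] at h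
    rcases mul_eq_zero.1 h.symm with h | h
    · exact absurd h hc.ne'
    · exact h
  have r2l : inner ℝ r₂ l = (0 : ℝ) := by
    have h := hnl' l
    rw [hLl, inner_smul_right, hnl, mul_zero] at h
    rcases mul_eq_zero.1 h.symm with h | h
    · exact absurd h hll.ne'
    · exact h
  have iop : ∀ r, inner ℝ r l = (0 : ℝ) → io u n (pj u n r) = r := by
    intro r hr
    have h := io_pj h3 hu hn hl hun hul hnl r
    rw [real_inner_comm, hr, zero_smul, add_zero] at h
    exact h.symm
  have n1 : ‖r₁‖ = 1 := by rw [hr₁, A.symm.norm_map, hu]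
  have n2 : ‖r₂‖ = 1 := by
    rw [hr₂, norm_smul, A.symm.norm_map, hdn, norm_inv, Real.norm_of_nonneg hll.le,
      inv_mul_cancel₀ hll.ne']
  have n12 : inner ℝ r₁ r₂ = (0 : ℝ) := by
    rw [hr₁, hr₂, inner_smul_right, A.symm.inner_map_map, ← dl_adj, hdu, inner_smul_left, hun]
    simp
  have pin : ∀ r s, inner ℝ s l = (0 : ℝ) →
      inner ℝ (pj u n r) (pj u n s) = (inner ℝ r s : ℝ) := by
    intro r s hs
    rw [pj_adj, iop s hs]
  have hon : Orthonormal ℝ ![pj u n r₁, pj u n r₂] := by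
    have a11 : inner ℝ (pj u n r₁) (pj u n r₁) = (1 : ℝ) := by
      rw [pin _ _ r1l, real_inner_self_eq_norm_sq, n1]; norm_num
    have a22 : inner ℝ (pj u n r₂) (pj u n r₂) = (1 : ℝ) := by
      rw [pin _ _ r2l, real_inner_self_eq_norm_sq, n2]; norm_num
    have a12 : inner ℝ (pj u n r₁) (pj u n r₂) = (0 : ℝ) := by
      rw [pin _ _ r2l, n12]
    have a21 : inner ℝ (pj u n r₂) (pj u n r₁) = (0 : ℝ) := by
      rw [real_inner_comm, a12]
    rw [orthonormal_iff_ite]
    intro i j
    fin_cases i <;> fin_cases j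
    · simpa using a11
    · simpa using a12
    · simpa using a21
    · simpa using a22
  let b := basisOfOrthonormalOfCardEqFinrank hon (by simp)
  have hb : (b : Fin 2 → E2) = ![pj u n r₁, pj u n r₂] :=
    coe_basisOfOrthonormalOfCardEqFinrank hon _
  let b' := b.toOrthonormalBasis (by rw [hb]; exact hon)
  have hb' : (b' : Fin 2 → E2) = ![pj u n r₁, pj u n r₂] := by
    rw [Module.Basis.coe_toOrthonormalBasis, hb]
  refine ⟨b'.repr, M, ?_, fun q => ?_⟩
  · obtain ⟨d, hd⟩ := hL
    refine ⟨pj u n d, fun q => ?_⟩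
    have h4 : F (io u n q) / N = 0 ↔ F (io u n q) = 0 := by
      constructor
      · intro h; rcases div_eq_zero_iff.1 h with h | h
        · exact h
        · exact absurd h hN
      · intro h; rw [h, zero_div]
    have h5 : F (io u n (M q + pj u n d)) / N = 0 ↔ F (io u n (M q + pj u n d)) = 0 := by
      constructor
      · intro h; rcases div_eq_zero_iff.1 h with h | h
        · exact h
        · exact absurd h hN
      · intro h; rw [h, zero_div]
    rw [h4, h5, hd, hM, ← map_add, hFpj]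
  · have q0 : (b'.repr q) 0 = (inner ℝ r₁ (io u n q) : ℝ) := by
      rw [OrthonormalBasis.repr_apply_apply, hb', ← pj_adj]; simp
    have q1 : (b'.repr q) 1 = (inner ℝ r₂ (io u n q) : ℝ) := by
      rw [OrthonormalBasis.repr_apply_apply, hb', ← pj_adj]; simp
    have m0 : (M q) 0 = c * (b'.repr q) 0 := by
      rw [hM, pj0, hul', q0]
    have m1 : (M q) 1 = lam κ c * (b'.repr q) 1 := by
      rw [hM, pj1, hnl', q1]
    rw [dec2 (M q), m0, m1, dl, in_en]
    conv_rhs => rw [dec2 (b'.repr q)]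
    ext i
    fin_cases i
    · simp [eu, en]
      field_simp
    · simp [eu, en]
      field_simp
      ring

end

end Pool.Helper824.HR
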