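import Mathlib

open Set Filter Topology MeasureTheory Real

namespace Pool.Helper824.HR

/-- strict convexity of `x e^{pv} + y e^{-qv}`. -/
theorem phi_strict {x y p q : ℝ} (hx : 0 < x) (hy : 0 < y) (hp : 0 < p) {u w t : ℝ}
    (hq : 0 < q) (huw : u < w) (ht0 : 0 < t) (ht1 : t < 1) :
    x * exp (p * ((1 - t) * u + t * w)) + y * exp (-(q * ((1 - t) * u + t * w))) <
      (1 - t) * (x * exp (p * u) + y * exp (-(q * u))) +
        t * (x * exp (p * w) + y * exp (-(q * w))) := by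
  have h1 := strictConvexOn_exp.2 (mem_univ (p * u)) (mem_univ (p * w))
    (ne_of_lt (mul_lt_mul_of_pos_left huw hp)) (sub_pos.2 ht1) ht0 (by ring)
  have h2 := strictConvexOn_exp.2 (mem_univ (-(q * u))) (mem_univ (-(q * w)))
    (ne_of_gt (neg_lt_neg (mul_lt_mul_of_pos_left huw hq))) (sub_pos.2 ht1) ht0 (by ring)
  simp only [smul_eq_mul] at h1 h2
  have e1 : (1 - t) * (p * u) + t * (p * w) = p * ((1 - t) * u + t * w) := by ring
  have e2 : (1 - t) * (-(q * u)) + t * (-(q * w)) = -(q * ((1 - t) * u + t * w)) := by ring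
  rw [e1] at h1
  rw [e2] at h2
  nlinarith [mul_lt_mul_of_pos_left h1 hx, mul_lt_mul_of_pos_left h2 hy]

theorem gauss3_aux (g : ℝ → ℝ) (k : ℝ) (hk : 0 < k)
    (hqc : ∀ s₀ s₁ t, 0 < s₀ → 0 < s₁ → 0 < t → t < 1 →
      min (g s₀) (g s₁) ≤ g ((1 - t) * s₀ + t * s₁))
    (hlim : Tendsto g atTop (𝓝 0)) {a₁ a₂ a₃ : ℝ} (h12 : a₁ < a₂) (h23 : a₂ < a₃) :
    ∃ α β γ M : ℝ,
      (∀ᵐ s ∂(volume.restrict (Ioi (0 : ℝ))),
        0 ≤ (α * exp (-a₁ * s ^ 2) + β * exp (-a₂ * s ^ 2) + γ * exp (-a₃ * s ^ 2)) * (g s - k)) ∧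
      (∀ s, M < s →
        (α * exp (-a₁ * s ^ 2) + β * exp (-a₂ * s ^ 2) + γ * exp (-a₃ * s ^ 2)) < 0) := by
  set J : Set ℝ := {s | 0 < s ∧ k < g s} with hJ
  by_cases hs : J.Subsingleton
  · refine ⟨-1, 0, 0, 0, ?_, fun s _ => ?_⟩
    · have h0 : volume.restrict (Ioi (0 : ℝ)) J = 0 := by
        exact hs.measure_zero _
      have h1 : ∀ᵐ s ∂(volume.restrict (Ioi (0 : ℝ))), s ∉ J := measure_eq_zero_iff_ae_notMem.1 h0
      filter_upwards [h1, ae_restrict_mem measurableSet_Ioi] with s hs1 hs2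
      have h3 : g s ≤ k := by
        by_contra hcon
        exact hs1 ⟨hs2, not_le.1 hcon⟩
      have := exp_pos (-a₁ * s ^ 2)
      nlinarith
    · have := exp_pos (-a₁ * s ^ 2)
      nlinarith
  · -- two points
    obtain ⟨x₀, hx₀, y₀, hy₀, hxy⟩ : ∃ x₀ ∈ J, ∃ y₀ ∈ J, x₀ < y₀ := by
      rw [Set.not_subsingleton_iff] at hs
      exact hs.exists_lt
    have hbb : BddBelow J := ⟨0, fun s hs => hs.1.le⟩
    obtain ⟨N, hN⟩ := eventually_atTop.1 (hlim.eventually (gt_mem_nhds hk))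
    have hba : BddAbove J := by
      refine ⟨N, fun s hs => ?_⟩
      by_contra hcon
      have h1 := hN s (not_le.1 hcon).le
      exact absurd hs.2 (not_lt.2 h1.le)
    have hne : J.Nonempty := ⟨x₀, hx₀⟩
    set s₁ := sInf J with hs₁
    set s₂ := sSup J with hs₂
    have hs10 : 0 ≤ s₁ := le_csInf hne fun s hs => hs.1.le
    have hs12 : s₁ < s₂ := (csInf_le hbb hx₀).trans_lt (hxy.trans_le (le_csSup hba hy₀))
    have hin : ∀ s, s₁ < s → s < s₂ → k < g s := by
      intro s h1 h2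
      obtain ⟨j, hj, hjs⟩ := exists_lt_of_csInf_lt hne h1
      obtain ⟨j', hj', hjs'⟩ := exists_lt_of_lt_csSup hne h2
      have hpos : 0 < j' - j := by linarith
      have h3 := hqc j j' ((s - j) / (j' - j)) hj.1 hj'.1 (div_pos (by linarith) hpos)
        ((div_lt_one hpos).2 (by linarith))
      have h4 : (1 - (s - j) / (j' - j)) * j + (s - j) / (j' - j) * j' = s := by
        field_simp; ring
      rw [h4] at h3
      exact (lt_min hj.2 hj'.2).trans_le h3
    have hout : ∀ s, 0 < s → (s < s₁ ∨ s₂ < s) → g s ≤ k := by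
      intro s h0 h1
      by_contra hcon
      have hsJ : s ∈ J := ⟨h0, not_le.1 hcon⟩
      rcases h1 with h1 | h1
      · exact absurd (csInf_le hbb hsJ) (not_le.2 h1)
      · exact absurd (le_csSup hba hsJ) (not_le.2 h1)
    set p := a₂ - a₁ with hp
    set q := a₃ - a₂ with hq
    have hp0 : 0 < p := sub_pos.2 h12
    have hq0 : 0 < q := sub_pos.2 h23
    set v₁ := s₁ ^ 2 with hv₁
    set v₂ := s₂ ^ 2 with hv₂
    have hv : v₁ < v₂ := by
      rw [hv₁, hv₂]; nlinarith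
    set Δ := exp (p * v₂) * exp (-(q * v₁)) - exp (p * v₁) * exp (-(q * v₂)) with hΔ
    have hΔ0 : 0 < Δ := by
      rw [hΔ, ← exp_add, ← exp_add, sub_pos]
      apply exp_lt_exp.2
      nlinarith [mul_lt_mul_of_pos_left hv hp0, mul_lt_mul_of_pos_left hv hq0]
    set x := (exp (-(q * v₁)) - exp (-(q * v₂))) / Δ with hx
    set y := (exp (p * v₂) - exp (p * v₁)) / Δ with hy
    have hx0 : 0 < x := by
      refine div_pos (sub_pos.2 (exp_lt_exp.2 ?_)) hΔ0
      nlinarith [mul_lt_mul_of_pos_left hv hq0]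
    have hy0 : 0 < y := by
      refine div_pos (sub_pos.2 (exp_lt_exp.2 ?_)) hΔ0
      nlinarith [mul_lt_mul_of_pos_left hv hp0]
    have hΦ1 : x * exp (p * v₁) + y * exp (-(q * v₁)) = 1 := by
      rw [hx, hy, div_mul_eq_mul_div, div_mul_eq_mul_div, ← add_div, div_eq_one_iff_eq hΔ0.ne', hΔ]
      ring
    have hΦ2 : x * exp (p * v₂) + y * exp (-(q * v₂)) = 1 := by
      rw [hx, hy, div_mul_eq_mul_div, div_mul_eq_mul_div, ← add_div, div_eq_one_iff_eq hΔ0.ne', hΔ]
      ring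
    have hΦin : ∀ v, v₁ < v → v < v₂ → x * exp (p * v) + y * exp (-(q * v)) < 1 := by
      intro v h1 h2
      have hpos : 0 < v₂ - v₁ := by linarith
      have h3 := phi_strict hx0 hy0 hp0 hq0 hv (t := (v - v₁) / (v₂ - v₁))
        (div_pos (by linarith) hpos) ((div_lt_one hpos).2 (by linarith))
      have h4 : (1 - (v - v₁) / (v₂ - v₁)) * v₁ + (v - v₁) / (v₂ - v₁) * v₂ = v := by
        field_simp; ring
      rw [h4, hΦ1, hΦ2] at h3
      linarith
    have hΦr : ∀ v, v₂ < v → 1 < x * exp (p * v) + y * exp (-(q * v)) := by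
      intro v h1
      have hpos : 0 < v - v₁ := by linarith
      have ht0 : 0 < (v₂ - v₁) / (v - v₁) := div_pos (by linarith) hpos
      have h3 := phi_strict hx0 hy0 hp0 hq0 (hv.trans h1) (t := (v₂ - v₁) / (v - v₁))
        ht0 ((div_lt_one hpos).2 (by linarith))
      have h4 : (1 - (v₂ - v₁) / (v - v₁)) * v₁ + (v₂ - v₁) / (v - v₁) * v = v₂ := by
        field_simp; ring
      rw [h4, hΦ1, hΦ2] at h3
      nlinarith
    have hΦl : ∀ v, v < v₁ → 1 < x * exp (p * v) + y * exp (-(q * v)) := by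
      intro v h1
      have hpos : 0 < v₂ - v := by linarith
      have ht1 : (v₁ - v) / (v₂ - v) < 1 := (div_lt_one hpos).2 (by linarith)
      have h3 := phi_strict hx0 hy0 hp0 hq0 (h1.trans hv) (t := (v₁ - v) / (v₂ - v))
        (div_pos (by linarith) hpos) ht1
      have h4 : (1 - (v₁ - v) / (v₂ - v)) * v + (v₁ - v) / (v₂ - v) * v₂ = v₁ := by
        field_simp; ring
      rw [h4, hΦ1, hΦ2] at h3
      nlinarith
    have hE : ∀ s, (-x) * exp (-a₁ * s ^ 2) + 1 * exp (-a₂ * s ^ 2) + (-y) * exp (-a₃ * s ^ 2) =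
        exp (-a₂ * s ^ 2) * (1 - (x * exp (p * s ^ 2) + y * exp (-(q * s ^ 2)))) := by
      intro s
      have e1 : exp (-a₁ * s ^ 2) = exp (-a₂ * s ^ 2) * exp (p * s ^ 2) := by
        rw [← exp_add]; congr 1; rw [hp]; ring
      have e2 : exp (-a₃ * s ^ 2) = exp (-a₂ * s ^ 2) * exp (-(q * s ^ 2)) := by
        rw [← exp_add]; congr 1; rw [hq]; ring
      rw [e1, e2]; ring
    refine ⟨-x, 1, -y, s₂, ?_, fun s hs => ?_⟩
    · filter_upwards [ae_restrict_mem measurableSet_Ioi] with s hs0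
      have hs0' : 0 < s := hs0
      rw [hE]
      have hpe := exp_pos (-a₂ * s ^ 2)
      rcases lt_trichotomy s s₁ with h1 | h1 | h1
      · have h2 := hΦl (s ^ 2) (by rw [hv₁]; nlinarith)
        have h3 := hout s hs0' (Or.inl h1)
        exact mul_nonneg_of_nonpos_of_nonpos
          (mul_nonpos_of_nonneg_of_nonpos hpe.le (by linarith)) (by linarith)
      · rw [h1, ← hv₁, hΦ1]; simp
      · rcases lt_trichotomy s s₂ with h2 | h2 | h2
        · have h3 := hΦin (s ^ 2) (by rw [hv₁]; nlinarith) (by rw [hv₂]; nlinarith)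
          have h4 := hin s h1 h2
          exact mul_nonneg (mul_nonneg hpe.le (by linarith)) (by linarith)
        · rw [h2, ← hv₂, hΦ2]; simp
        · have h3 := hΦr (s ^ 2) (by rw [hv₂]; nlinarith)
          have h4 := hout s hs0' (Or.inr h2)
          exact mul_nonneg_of_nonpos_of_nonpos
            (mul_nonpos_of_nonneg_of_nonpos hpe.le (by linarith)) (by linarith)
    · rw [hE]
      have h3 := hΦr (s ^ 2) (by rw [hv₂]; nlinarith)
      exact mul_neg_of_pos_of_neg (exp_pos _) (by linarith)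

theorem integrable_gauss (g : ℝ → ℝ) (hm : Measurable g) (k G : ℝ)
    (hg0 : ∀ s, 0 ≤ g s) (hgG : ∀ s, g s ≤ G) {a : ℝ} (ha : 0 < a) :
    Integrable (fun s => exp (-a * s ^ 2) * (g s - k)) (volume.restrict (Ioi (0 : ℝ))) := by
  have h1 : Integrable (fun s : ℝ => exp (-a * s ^ 2)) (volume.restrict (Ioi (0 : ℝ))) :=
    (integrable_exp_neg_mul_sq ha).restrict
  refine h1.mul_bdd (c := G + |k|) ((hm.sub_const k).aestronglyMeasurable) ?_
  refine Filter.Eventually.of_forall fun s => ?_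
  rw [Real.norm_eq_abs]
  calc |g s - k| ≤ |g s| + |k| := abs_sub _ _
    _ ≤ G + |k| := by rw [abs_of_nonneg (hg0 s)]; linarith [hgG s]

theorem gauss3 (g : ℝ → ℝ) (hm : Measurable g) (k G : ℝ) (hk : 0 < k)
    (hg0 : ∀ s, 0 ≤ g s) (hgG : ∀ s, g s ≤ G)
    (hqc : ∀ s₀ s₁ t, 0 < s₀ → 0 < s₁ → 0 < t → t < 1 →
      min (g s₀) (g s₁) ≤ g ((1 - t) * s₀ + t * s₁))
    (hlim : Tendsto g atTop (𝓝 0)) {a₁ a₂ a₃ : ℝ} (h1 : 0 < a₁) (h12 : a₁ < a₂) (h23 : a₂ < a₃)
    (i1 : ∫ s in Ioi (0 : ℝ), exp (-a₁ * s ^ 2) * (g s - k) = 0)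
    (i2 : ∫ s in Ioi (0 : ℝ), exp (-a₂ * s ^ 2) * (g s - k) = 0)
    (i3 : ∫ s in Ioi (0 : ℝ), exp (-a₃ * s ^ 2) * (g s - k) = 0) : False := by
  obtain ⟨α, β, γ, M, hae, hneg⟩ := gauss3_aux g k hk hqc hlim h12 h23
  have j1 := integrable_gauss g hm k G hg0 hgG h1
  have j2 := integrable_gauss g hm k G hg0 hgG (h1.trans h12)
  have j3 := integrable_gauss g hm k G hg0 hgG (h1.trans (h12.trans h23))
  have hsplit : (fun s => (α * exp (-a₁ * s ^ 2) + β * exp (-a₂ * s ^ 2) +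
      γ * exp (-a₃ * s ^ 2)) * (g s - k)) = fun s => (α * (exp (-a₁ * s ^ 2) * (g s - k)) +
      β * (exp (-a₂ * s ^ 2) * (g s - k))) + γ * (exp (-a₃ * s ^ 2) * (g s - k)) := by
    funext s; ring
  have hint : Integrable (fun s => (α * exp (-a₁ * s ^ 2) + β * exp (-a₂ * s ^ 2) +
      γ * exp (-a₃ * s ^ 2)) * (g s - k)) (volume.restrict (Ioi (0 : ℝ))) := by
    rw [hsplit]
    exact ((j1.const_mul α).add (j2.const_mul β)).add (j3.const_mul γ)
  have hzero : ∫ s in Ioi (0 : ℝ), (α * exp (-a₁ * s ^ 2) + β * exp (-a₂ * s ^ 2) +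
      γ * exp (-a₃ * s ^ 2)) * (g s - k) = 0 := by
    have j12 : Integrable (fun s => α * (exp (-a₁ * s ^ 2) * (g s - k)) +
        β * (exp (-a₂ * s ^ 2) * (g s - k))) (volume.restrict (Ioi (0 : ℝ))) :=
      (j1.const_mul α).add (j2.const_mul β)
    rw [hsplit, integral_add j12 (j3.const_mul γ),
      integral_add (j1.const_mul α) (j2.const_mul β), integral_const_mul, integral_const_mul,
      integral_const_mul, i1, i2, i3]
    ring
  have h0 := (integral_eq_zero_iff_of_nonneg_ae hae hint).1 hzero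
  obtain ⟨N, hN⟩ := eventually_atTop.1 (hlim.eventually (gt_mem_nhds hk))
  set R := max (max M N) 0 with hR
  have hsub : Ioi R ⊆ Ioi (0 : ℝ) := Ioi_subset_Ioi (le_max_right _ _)
  have h2 := ae_restrict_of_ae_restrict_of_subset hsub h0
  have h3 : ∀ᵐ s ∂(volume.restrict (Ioi R)), False := by
    filter_upwards [h2, ae_restrict_mem measurableSet_Ioi] with s hs1 hs2
    have hs2' : R < s := hs2
    have hMs : M < s := ((le_max_left M N).trans (le_max_left _ _)).trans_lt hs2'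
    have hNs : N < s := ((le_max_right M N).trans (le_max_left _ _)).trans_lt hs2'
    have h4 := hneg s hMs
    have h5 := hN s hNs.le
    have h6 : 0 < (α * exp (-a₁ * s ^ 2) + β * exp (-a₂ * s ^ 2) +
      γ * exp (-a₃ * s ^ 2)) * (g s - k) := mul_pos_of_neg_of_neg h4 (by linarith)
    simp only [Pi.zero_apply] at hs1
    linarith
  have h4 := ae_iff.1 h3
  simp at h4

end Pool.Helper824.HR
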