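import Pool.Agent.Helper824_hr.Cyl

open Set Filter Topology

namespace Pool.Helper824.HR

variable {E : Type*} [NormedAddCommGroup E] [InnerProductSpace ℝ E]

/-- two independent directions of invariance -/
theorem lin2 [FiniteDimensional ℝ E] (h3 : Module.finrank ℝ E = 3) {e : E} {F : E → ℝ}
    (hF : Gr e F) (he : ‖e‖ = 1) {a u : E} (ha : ‖a‖ = 1) (hu : ‖u‖ = 1)
    (hau : inner ℝ a u = (0 : ℝ)) (hae : inner ℝ a e = (0 : ℝ)) (hue : inner ℝ u e = (0 : ℝ))
    {κ : ℝ} (h1 : ∀ (p : E) (t : ℝ), F (p + t • (a + κ • e)) = F p) {w : E}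
    (h2 : ∀ (p : E) (t : ℝ), F (p + t • w) = F p) (hw : ¬ ∃ t : ℝ, w = t • (a + κ • e)) :
    Aff F := by
  have hee : inner ℝ e e = (1 : ℝ) := by rw [real_inner_self_eq_norm_sq, he]; norm_num
  set α : ℝ := inner ℝ a w with hα
  set β : ℝ := inner ℝ u w with hβ
  set δ : ℝ := inner ℝ e w - α * κ with hδ
  have hw1 : w - α • (a + κ • e) = β • u + δ • e := by
    have h4 := onb3 h3 ha hu he hau hae hue w
    conv_lhs => rw [h4]
    rw [smul_add, smul_smul, hδ, sub_smul]
    abel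
  have h4 : ∀ (p : E) (t : ℝ), F (p + t • (β • u + δ • e)) = F p := by
    intro p t
    rw [← hw1]
    have h5 : p + t • (w - α • (a + κ • e)) = (p + t • w) + (-(t * α)) • (a + κ • e) := by
      rw [smul_sub, smul_smul, neg_smul]; abel
    rw [h5, h1, h2]
  have hβ0 : β ≠ 0 := by
    intro h
    apply hw
    have h5 := h4 0 1
    rw [h, zero_smul, zero_add, one_smul, hF.tr] at h5
    have h6 : δ = 0 := by linarith
    rw [h, h6, zero_smul, zero_smul, add_zero, sub_eq_zero] at hw1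
    exact ⟨α, hw1⟩
  refine ⟨e - κ • a - (δ / β) • u, F 0, fun p => ?_⟩
  have h5 := onb3 h3 ha hu he hau hae hue p
  have h6 : p = ((0 + (inner ℝ e p - κ * inner ℝ a p - inner ℝ u p / β * δ) • e) +
      (inner ℝ u p / β : ℝ) • (β • u + δ • e)) + (inner ℝ a p : ℝ) • (a + κ • e) := by
    conv_lhs => rw [h5]
    simp only [smul_add, smul_smul, sub_smul, div_mul_cancel₀ _ hβ0]
    rw [mul_comm κ]
    abel
  conv_lhs => rw [h6]
  rw [h1, h4, hF.tr, inner_sub_left, inner_sub_left, inner_smul_left, inner_smul_left]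
  simp only [conj_trivial]
  ring

/-- The abstract three-dimensional theorem. -/
theorem main3 [FiniteDimensional ℝ E] (h3 : Module.finrank ℝ E = 3) {e : E} {F : E → ℝ}
    (hF : Gr e F) (he : ‖e‖ = 1)
    {c₁ c₂ : ℝ} (hc₁ : 0 < c₁) (hc₂ : 0 < c₂) (h1 : c₁ ≠ 1) (h2 : c₂ ≠ 1) (h12 : c₁ ≠ c₂)
    (H₁ : HL e F c₁) (H₂ : HL e F c₂) : Aff F := by
  by_cases hp : ∀ v, v ∈ VC F → -v ∈ VC F → v = 0
  · obtain ⟨k, hk⟩ := pointed3 h3 hF he hp hc₁ hc₂ h1 h2 h12 H₁ H₂
    exact ⟨e, k, hk⟩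
  push Not at hp
  obtain ⟨v, hv, hv', hv0⟩ := hp
  have hee : inner ℝ e e = (1 : ℝ) := by rw [real_inner_self_eq_norm_sq, he]; norm_num
  have hinv := lin_inv hv hv'
  set x := v - (inner ℝ e v : ℝ) • e with hx
  have hx0 : x ≠ 0 := by
    intro h
    apply hv0
    have h4 : v = (inner ℝ e v : ℝ) • e := by rw [hx, sub_eq_zero] at h; exact h
    have h5 := hinv 0 1
    rw [one_smul, h4, hF.tr] at h5
    have h6 : (inner ℝ e v : ℝ) = 0 := by linarith
    rw [h4, h6, zero_smul]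
  have hxn : 0 < ‖x‖ := norm_pos_iff.2 hx0
  obtain ⟨a, ha'⟩ : ∃ a, a = ‖x‖⁻¹ • x := ⟨_, rfl⟩
  obtain ⟨κ, hκ'⟩ : ∃ κ : ℝ, κ = ‖x‖⁻¹ * inner ℝ e v := ⟨_, rfl⟩
  have ha : ‖a‖ = 1 := by
    rw [ha', norm_smul, norm_inv, norm_norm, inv_mul_cancel₀ hxn.ne']
  have hex : inner ℝ e x = (0 : ℝ) := by
    rw [hx, inner_sub_right, inner_smul_right, hee]; ring
  have hea : inner ℝ e a = (0 : ℝ) := by rw [ha', inner_smul_right, hex, mul_zero]
  have hae : inner ℝ a e = (0 : ℝ) := by rw [real_inner_comm]; exact hea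
  obtain ⟨l, hl'⟩ : ∃ l, l = a + κ • e := ⟨_, rfl⟩
  have hl : l = ‖x‖⁻¹ • v := by
    rw [hl', ha', hκ', hx, smul_sub, smul_smul]; abel
  have hlv : l ∈ VC F := by rw [hl]; exact VC.smul hv (inv_nonneg.2 hxn.le)
  have hlv' : -l ∈ VC F := by rw [hl, ← smul_neg]; exact VC.smul hv' (inv_nonneg.2 hxn.le)
  have hli := lin_inv hlv hlv'
  obtain ⟨u, hu, hau, heu⟩ := exists_third h3 a e
  have hue : inner ℝ u e = (0 : ℝ) := by rw [real_inner_comm]; exact heu
  by_cases hB : ∀ w, w ∈ VC F → -w ∈ VC F → ∃ t : ℝ, w = t • l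
  swap
  · push Not at hB
    obtain ⟨w, hw, hw', hwl⟩ := hB
    rw [hl'] at hli hwl
    exact lin2 h3 hF he ha hu hau hae hue hli (lin_inv hw hw') (fun ⟨t, ht⟩ => hwl t ht)
  -- the planar reduction
  have haa : inner ℝ a a = (1 : ℝ) := by rw [real_inner_self_eq_norm_sq, ha]; norm_num
  obtain ⟨N, hN⟩ : ∃ N, N = √(1 + κ ^ 2) := ⟨_, rfl⟩
  have hN2 : N ^ 2 = 1 + κ ^ 2 := by rw [hN]; exact Real.sq_sqrt (by positivity)
  have hN0 : 0 < N := by rw [hN]; exact Real.sqrt_pos.2 (by positivity)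
  obtain ⟨n, hn'⟩ : ∃ n, n = N⁻¹ • (e - κ • a) := ⟨_, rfl⟩
  obtain ⟨l', hl''⟩ : ∃ l', l' = N⁻¹ • l := ⟨_, rfl⟩
  have sqn : ∀ s t : ℝ, ‖s • e - t • a‖ ^ 2 = s ^ 2 + t ^ 2 := by
    intro s t
    rw [norm_sub_sq_real, inner_smul_left, inner_smul_right, hea, norm_smul, norm_smul, he, ha]
    simp
  have hn : ‖n‖ = 1 := by
    have h4 := sqn 1 κ
    rw [one_smul, one_pow, ← hN2] at h4
    have h5 : ‖e - κ • a‖ = N := (pow_left_inj₀ (norm_nonneg _) hN0.le two_ne_zero).1 h4
    rw [hn', norm_smul, h5, norm_inv, Real.norm_of_nonneg hN0.le, inv_mul_cancel₀ hN0.ne']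
  have hl1 : ‖l'‖ = 1 := by
    have h4 := sqn κ (-1)
    rw [neg_one_smul, sub_neg_eq_add, add_comm, ← hl'] at h4
    have h6 : ‖l‖ ^ 2 = N ^ 2 := by rw [h4, hN2]; ring
    have h5 : ‖l‖ = N := (pow_left_inj₀ (norm_nonneg _) hN0.le two_ne_zero).1 h6
    rw [hl'', norm_smul, h5, norm_inv, Real.norm_of_nonneg hN0.le, inv_mul_cancel₀ hN0.ne']
  have hua : inner ℝ u a = (0 : ℝ) := by rw [real_inner_comm]; exact hau
  have hun : inner ℝ u n = (0 : ℝ) := by
    rw [hn', inner_smul_right, inner_sub_right, inner_smul_right, hue, hua]; simp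
  have hul : inner ℝ u l' = (0 : ℝ) := by
    rw [hl'', inner_smul_right, hl', inner_add_right, inner_smul_right, hue, hua]; simp
  have hnl : inner ℝ n l' = (0 : ℝ) := by
    rw [hn', hl'', inner_smul_left, inner_smul_right, hl', inner_sub_left, inner_add_right,
      inner_add_right, inner_smul_right, inner_smul_left, inner_smul_left, inner_smul_right, hea,
      hee, haa, hae]
    simp
  have hli' : ∀ (p : E) (t : ℝ), F (p + t • l') = F p := by
    intro p t
    rw [hl'', smul_smul]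
    exact hli p _
  have hdn : ∀ c : ℝ, ‖dl e c n‖ = lam κ c := by
    intro c
    have h4 : dl e c n = N⁻¹ • ((1 : ℝ) • e - (c * κ) • a) := by
      have h5 : e - κ • a = e + (-κ) • a := by rw [neg_smul, sub_eq_add_neg]
      rw [hn', dl_smul, h5, dl_add, dl_smul, dl_self he, dl_perp c hea, smul_smul, one_smul,
        sub_eq_add_neg, ← neg_smul]
      congr 3
      ring
    have h6 : ‖dl e c n‖ ^ 2 = lam κ c ^ 2 := by
      rw [h4, norm_smul, mul_pow, sqn, norm_inv, Real.norm_of_nonneg hN0.le, lam_sq, inv_pow, hN2]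
      field_simp
    exact (pow_left_inj₀ (norm_nonneg _) (lam_pos κ c).le two_ne_zero).1 h6
  have red : ∀ c : ℝ, 0 < c → HL e F c → PL2 (fun q => F (io u n q) / N) κ c := by
    intro c hc hH
    obtain ⟨A, L, hL, hLA⟩ := hH
    obtain ⟨ε, hε, hV⟩ := hL.cone hF
    have e1 := (hV l).1 hlv
    have e2 := (hV (-l)).1 hlv'
    rw [map_neg, smul_neg] at e2
    obtain ⟨t, ht⟩ := hB _ e1 e2
    have hε0 : ε ≠ 0 := by rcases hε with h | h <;> rw [h] <;> norm_num
    have hLl : L l' = (ε⁻¹ * t) • l' := by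
      rw [hl'', map_smul, smul_comm]
      congr 1
      rw [mul_smul, ← ht, smul_smul, inv_mul_cancel₀ hε0, one_smul]
    have ht0 : ε⁻¹ * t ≠ 0 := by
      intro h
      rw [h, zero_smul] at hLl
      have h4 : l' = 0 := by
        have := L.injective (hLl.trans (map_zero L).symm)
        exact this
      rw [h4, norm_zero] at hl1
      exact zero_ne_one hl1
    exact cyl_PL2 h3 hu hn hl1 hun hul hnl hli' hN0.ne' hc heu (hdn c) hL hLA ht0 hLl
  have hG2 : Gr en (fun q => F (io u n q) / N) := by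
    constructor
    · have h4 : Continuous (io u n) := LinearMap.continuous_of_finiteDimensional _
      exact (hF.cont.comp h4).div_const N
    · intro q s
      have h4 : io u n (q + s • en) = (io u n q + (s * N) • e) + (-(s * (κ / N))) • l := by
        have h5 : io u n en = n := by rw [io_app]; simp [en]
        rw [map_add, map_smul, h5, add_assoc]
        congr 1
        have h6 : n = N • e - (κ / N) • l := by
          rw [hn', hl', smul_add, smul_sub, smul_smul, smul_smul]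
          have h7 : N = N⁻¹ + κ / N * κ := by
            field_simp
            linarith
          have h8 : N • e = N⁻¹ • e + (κ / N * κ) • e := by
            rw [← add_smul, ← h7]
          rw [h8]
          have h9 : N⁻¹ * κ = κ / N := by ring
          rw [h9]
          abel
        rw [h6, smul_sub, smul_smul, smul_smul, neg_smul, sub_eq_add_neg]
      change F (io u n (q + s • en)) / N = F (io u n q) / N + s
      rw [h4, hli, hF.tr]
      field_simp
  obtain ⟨m, k, hmk⟩ := planar hG2 hc₁ hc₂ h1 h2 h12 (red c₁ hc₁ H₁) (red c₂ hc₂ H₂)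
  refine ⟨N • io u n m, N * k, fun p => ?_⟩
  have h4 := hmk (pj u n p)
  have h5 : F (io u n (pj u n p)) = F p := by
    conv_rhs => rw [io_pj h3 hu hn hl1 hun hul hnl p]
    rw [hli']
  simp only at h4
  rw [h5, div_eq_iff hN0.ne', real_inner_comm, pj_adj] at h4
  rw [h4, inner_smul_left, real_inner_comm p (io u n m)]
  simp only [conj_trivial]
  ring

end Pool.Helper824.HR
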