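import Mathlib

open Real

namespace Pool.Helper824.HR

/-- the vertical factor -/
noncomputable def lam (κ c : ℝ) : ℝ := √((1 + c ^ 2 * κ ^ 2) / (1 + κ ^ 2))

theorem lam_sq (κ c : ℝ) : lam κ c ^ 2 = (1 + c ^ 2 * κ ^ 2) / (1 + κ ^ 2) :=
  Real.sq_sqrt (by positivity)

theorem lam_pos (κ c : ℝ) : 0 < lam κ c := Real.sqrt_pos.2 (by positivity)

theorem lam_zero (c : ℝ) : lam 0 c = 1 := by
  unfold lam; simp

theorem lam_gt_one {κ c : ℝ} (hκ : κ ≠ 0) (hc : 1 < c) : 1 < lam κ c := by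
  have h1 : (1 : ℝ) ^ 2 < lam κ c ^ 2 := by
    rw [lam_sq, one_pow, lt_div_iff₀ (by positivity)]
    have : 0 < κ ^ 2 := by positivity
    have hc2 : 0 < c ^ 2 - 1 := by nlinarith
    nlinarith [mul_pos hc2 this]
  exact lt_of_pow_lt_pow_left₀ 2 (lam_pos κ c).le h1

theorem lam_lt_one {κ c : ℝ} (hκ : κ ≠ 0) (hc0 : 0 < c) (hc : c < 1) : lam κ c < 1 := by
  have h1 : lam κ c ^ 2 < 1 ^ 2 := by
    rw [lam_sq, one_pow, div_lt_iff₀ (by positivity)]
    have : 0 < κ ^ 2 := by positivity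
    have hc2 : 0 < 1 - c ^ 2 := by nlinarith
    nlinarith [mul_pos hc2 this]
  exact lt_of_pow_lt_pow_left₀ 2 zero_le_one h1

theorem lam_lt {κ c : ℝ} (hc : 1 < c) : lam κ c < c := by
  have h1 : lam κ c ^ 2 < c ^ 2 := by
    rw [lam_sq, div_lt_iff₀ (by positivity)]
    nlinarith
  exact lt_of_pow_lt_pow_left₀ 2 (by linarith) h1

theorem lam_gt {κ c : ℝ} (hc0 : 0 < c) (hc : c < 1) : c < lam κ c := by
  have h1 : c ^ 2 < lam κ c ^ 2 := by
    rw [lam_sq, lt_div_iff₀ (by positivity)]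
    nlinarith
  exact lt_of_pow_lt_pow_left₀ 2 (lam_pos κ c).le h1

theorem lam_ne {κ c : ℝ} (hc0 : 0 < c) (hc : c ≠ 1) : lam κ c ≠ c := by
  rcases lt_or_gt_of_ne hc with h | h
  · exact (lam_gt hc0 h).ne'
  · exact (lam_lt h).ne

theorem mu_inj {κ c d : ℝ} (hc : 0 < c) (hd : 0 < d) (h : c * lam κ d = d * lam κ c) : c = d := by
  have h1 : (c * lam κ d) ^ 2 = (d * lam κ c) ^ 2 := by rw [h]
  rw [mul_pow, mul_pow, lam_sq, lam_sq] at h1
  have h2 : c ^ 2 = d ^ 2 := by
    field_simp at h1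
    nlinarith
  nlinarith [sq_nonneg (c - d), mul_pos hc hd]

theorem log_mul_lam_ne {κ c : ℝ} (hκ : κ ≠ 0) (hc0 : 0 < c) (hc : c ≠ 1) :
    log c + log (lam κ c) ≠ 0 := by
  rcases lt_or_gt_of_ne hc with h | h
  · have h1 := log_neg hc0 h
    have h2 := log_neg (lam_pos κ c) (lam_lt_one hκ hc0 h)
    linarith
  · have h1 := log_pos h
    have h2 := log_pos (lam_gt_one hκ h)
    linarith

theorem log_ne_log_lam {κ c : ℝ} (hc0 : 0 < c) (hc : c ≠ 1) : log c ≠ log (lam κ c) := by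
  intro h
  exact lam_ne (κ := κ) hc0 hc (log_injOn_pos (Set.mem_Ioi.2 (lam_pos κ c)) (Set.mem_Ioi.2 hc0) h.symm)

/-- a strictly concave power meets a line in at most two points -/
theorem concave3 {γ a b x y z : ℝ} (h0 : 0 < γ) (h1 : γ < 1) (hx : 0 ≤ x) (hxy : x < y)
    (hyz : y < z) (ex : x ^ γ = a + b * x) (ey : y ^ γ = a + b * y) (ez : z ^ γ = a + b * z) :
    False := by
  have hs := Real.strictConcaveOn_rpow h0 h1
  have hz : 0 < z - x := by linarith
  have ha : 0 < (z - y) / (z - x) := div_pos (by linarith) hz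
  have hb : 0 < (y - x) / (z - x) := div_pos (by linarith) hz
  have hab : (z - y) / (z - x) + (y - x) / (z - x) = 1 := by field_simp; ring
  have h2 := hs.2 (Set.mem_Ici.2 hx) (Set.mem_Ici.2 (by linarith : (0 : ℝ) ≤ z))
    (hxy.trans hyz).ne ha hb hab
  simp only [smul_eq_mul] at h2
  have h3 : (z - y) / (z - x) * x + (y - x) / (z - x) * z = y := by field_simp; ring
  rw [h3, ey, ex, ez] at h2
  have h4 : (z - y) / (z - x) * (a + b * x) + (y - x) / (z - x) * (a + b * z) = a + b * y := by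
    field_simp; ring
  linarith

theorem exponents_ne {κ c d : ℝ} (hκ : κ ≠ 0) (hc : 0 < c) (hc1 : c ≠ 1) (hd : 0 < d)
    (hd1 : d ≠ 1) (hcd : c ≠ d) : log c * log (lam κ d) ≠ log d * log (lam κ c) := by
  intro h
  have hlc : log c ≠ 0 := log_ne_zero_of_pos_of_ne_one hc hc1
  have hld : log d ≠ 0 := log_ne_zero_of_pos_of_ne_one hd hd1
  set γ := log (lam κ c) / log c with hγ
  have e1 : log (lam κ c) = γ * log c := by rw [hγ]; field_simp
  have e2 : log (lam κ d) = γ * log d := by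
    rw [hγ]; field_simp; linarith
  have hγ01 : 0 < γ ∧ γ < 1 := by
    rcases lt_or_gt_of_ne hc1 with h' | h'
    · have h1 := log_neg hc h'
      have h2 := log_neg (lam_pos κ c) (lam_lt_one hκ hc h')
      have h3 := log_lt_log hc (lam_gt (κ := κ) hc h')
      exact ⟨div_pos_of_neg_of_neg h2 h1, (div_lt_one_of_neg h1).2 h3⟩
    · have h1 := log_pos h'
      have h2 := log_pos (lam_gt_one hκ h')
      have h3 := log_lt_log (lam_pos κ c) (lam_lt (κ := κ) h')
      exact ⟨div_pos h2 h1, (div_lt_one h1).2 h3⟩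
  have key : ∀ x : ℝ, 0 < x → log (lam κ x) = γ * log x →
      (x ^ 2) ^ γ = 1 / (1 + κ ^ 2) + κ ^ 2 / (1 + κ ^ 2) * x ^ 2 := by
    intro x hx hlx
    have h1 : (x ^ 2) ^ γ = lam κ x ^ 2 := by
      rw [Real.rpow_def_of_pos (by positivity), Real.log_pow]
      have h2 : lam κ x ^ 2 = exp (log (lam κ x ^ 2)) := (exp_log (by have := lam_pos κ x; positivity)).symm
      rw [h2, Real.log_pow, hlx]
      congr 1
      push_cast
      ring
    rw [h1, lam_sq]
    field_simp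
  have k1 := key c hc e1
  have k2 := key d hd e2
  have k3 : ((1 : ℝ) ^ 2) ^ γ = 1 / (1 + κ ^ 2) + κ ^ 2 / (1 + κ ^ 2) * (1 : ℝ) ^ 2 := by
    rw [one_pow, Real.one_rpow]; field_simp
  have main : ∀ x y z : ℝ, 0 < x → x < y → y < z →
      (x ^ 2) ^ γ = 1 / (1 + κ ^ 2) + κ ^ 2 / (1 + κ ^ 2) * x ^ 2 →
      (y ^ 2) ^ γ = 1 / (1 + κ ^ 2) + κ ^ 2 / (1 + κ ^ 2) * y ^ 2 →
      (z ^ 2) ^ γ = 1 / (1 + κ ^ 2) + κ ^ 2 / (1 + κ ^ 2) * z ^ 2 → False := by
    intro x y z hx hxy hyz ex ey ez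
    exact concave3 hγ01.1 hγ01.2 (by positivity) (by nlinarith) (by nlinarith) ex ey ez
  rcases lt_or_gt_of_ne hc1 with a | a <;> rcases lt_or_gt_of_ne hd1 with b | b <;>
    rcases lt_or_gt_of_ne hcd with f | f
  · exact main c d 1 hc f b k1 k2 k3
  · exact main d c 1 hd f a k2 k1 k3
  · exact main c 1 d hc a b k1 k3 k2
  · linarith
  · linarith
  · exact main d 1 c hd b a k2 k3 k1
  · exact main 1 c d one_pos a f k3 k1 k2
  · exact main 1 d c one_pos b f k3 k2 k1

/-- two independent vectors of the plane generate a lattice meeting an open quadrant -/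
theorem lattice {a s a' s' : ℝ} (h : a * s' ≠ a' * s) :
    ∃ i j : ℤ, i * a + j * a' < 0 ∧ 0 ≤ i * s + j * s' := by
  have hΔ : a * s' - a' * s ≠ 0 := sub_ne_zero.2 h
  set T := |a| + |a'| + |s| + |s'| + 1 with hT
  set α := (-T * s' - T * a') / (a * s' - a' * s) with hα
  set β := (T * a + T * s) / (a * s' - a' * s) with hβ
  have e1 : α * a + β * a' = -T := by
    rw [hα, hβ, div_mul_eq_mul_div, div_mul_eq_mul_div, ← add_div, div_eq_iff hΔ]; ring
  have e2 : α * s + β * s' = T := by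
    rw [hα, hβ, div_mul_eq_mul_div, div_mul_eq_mul_div, ← add_div, div_eq_iff hΔ]; ring
  have r1 : |(round α : ℝ) - α| ≤ 1 := by
    rw [abs_sub_comm]; exact (abs_sub_round α).trans (by norm_num)
  have r2 : |(round β : ℝ) - β| ≤ 1 := by
    rw [abs_sub_comm]; exact (abs_sub_round β).trans (by norm_num)
  have b : ∀ x y : ℝ, |x| ≤ 1 → |x * y| ≤ |y| := by
    intro x y hx
    rw [abs_mul]
    nlinarith [abs_nonneg y]
  refine ⟨round α, round β, ?_, ?_⟩
  · have h1 : (round α : ℝ) * a + round β * a' =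
        -T + (((round α : ℝ) - α) * a + ((round β : ℝ) - β) * a') := by rw [← e1]; ring
    have h2 := (le_abs_self _).trans (b _ a r1)
    have h3 := (le_abs_self _).trans (b _ a' r2)
    rw [h1, hT]
    have := abs_nonneg s
    have := abs_nonneg s'
    linarith
  · have h1 : (round α : ℝ) * s + round β * s' =
        T + (((round α : ℝ) - α) * s + ((round β : ℝ) - β) * s') := by rw [← e2]; ring
    have h2 := (neg_abs_le _).trans' (neg_le_neg (b _ s r1))
    have h3 := (neg_abs_le _).trans' (neg_le_neg (b _ s' r2))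
    rw [h1, hT]
    have := abs_nonneg a
    have := abs_nonneg a'
    linarith

end Pool.Helper824.HR
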