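import Pool.Agent.Helper824_hr.Pointed
import Pool.Agent.Helper824_hr.Num

open Set Filter Topology

namespace Pool.Helper824.HR

section gen
variable {E : Type*} [NormedAddCommGroup E] [InnerProductSpace ℝ E]

/-- `F` is an affine function -/
def Aff (F : E → ℝ) : Prop := ∃ (m : E) (k : ℝ), ∀ p, F p = inner ℝ m p + k

theorem lin_inv {F : E → ℝ} {v : E} (hv : v ∈ VC F) (hv' : -v ∈ VC F) (p : E) (t : ℝ) :
    F (p + t • v) = F p := by
  have pos : ∀ (p : E) (t : ℝ), 0 ≤ t → F (p + t • v) = F p := by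
    intro p t ht
    refine le_antisymm ?_ (hv p t ht)
    have h := hv' (p + t • v) t ht
    rwa [smul_neg, add_neg_cancel_right] at h
  rcases le_total 0 t with h | h
  · exact pos p t h
  · have h1 := pos (p + t • v) (-t) (by linarith)
    rw [add_assoc, ← add_smul, add_neg_cancel, zero_smul, add_zero] at h1
    exact h1.symm

theorem SM.one {F : E → ℝ} : SM F (1 : E ≃L[ℝ] E) := ⟨0, fun v => by rw [add_zero]; rfl⟩

theorem SM.pow {F : E → ℝ} {W : E ≃L[ℝ] E} (h : SM F W) (n : ℕ) : SM F (W ^ n) := by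
  induction n with
  | zero => rw [pow_zero]; exact SM.one
  | succ n ih => rw [pow_succ]; exact ih.mul h

theorem SM.zpow {F : E → ℝ} {W : E ≃L[ℝ] E} (h : SM F W) (n : ℤ) : SM F (W ^ n) := by
  cases n with
  | ofNat n => rw [Int.ofNat_eq_natCast, zpow_natCast]; exact h.pow n
  | negSucc n => rw [zpow_negSucc]; exact (h.pow _).inv

theorem pow_eig {W : E ≃L[ℝ] E} {x : E} {p : ℝ} (h : W x = p • x) (n : ℕ) :
    (W ^ n) x = p ^ n • x := by
  induction n with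
  | zero => rw [pow_zero, pow_zero, one_smul]; rfl
  | succ n ih => rw [pow_succ, mul_app, h, map_smul, ih, smul_smul, pow_succ, mul_comm]

theorem zpow_eig {W : E ≃L[ℝ] E} {x : E} {p : ℝ} (hp : p ≠ 0) (h : W x = p • x) (n : ℤ) :
    (W ^ n) x = p ^ n • x := by
  cases n with
  | ofNat n => rw [Int.ofNat_eq_natCast, zpow_natCast, zpow_natCast]; exact pow_eig h n
  | negSucc n =>
    rw [zpow_negSucc, zpow_negSucc]
    exact inv_eig (pow_ne_zero _ hp) (pow_eig h _)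

end gen

/-- the plane -/
abbrev E2 := EuclideanSpace ℝ (Fin 2)

/-- horizontal unit vector -/
noncomputable def eu : E2 := EuclideanSpace.single 0 1

/-- vertical unit vector -/
noncomputable def en : E2 := EuclideanSpace.single 1 1

theorem in_en (q : E2) : inner ℝ en q = q 1 := by
  unfold en
  rw [EuclideanSpace.inner_single_left]; simp

theorem in_eu (q : E2) : inner ℝ eu q = q 0 := by
  unfold eu
  rw [EuclideanSpace.inner_single_left]; simp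

theorem norm_en : ‖en‖ = 1 := by unfold en; simp

theorem norm_eu : ‖eu‖ = 1 := by unfold eu; simp

theorem dec2 (q : E2) : q = q 0 • eu + q 1 • en := by
  ext i
  fin_cases i <;> simp [eu, en]

theorem perp2 {q : E2} (h : inner ℝ en q = (0 : ℝ)) : q = q 0 • eu := by
  have h1 := dec2 q
  rw [in_en] at h
  rw [h, zero_smul, add_zero] at h1
  exact h1

theorem perp2_norm {q : E2} (h : inner ℝ en q = (0 : ℝ)) : |q 0| = ‖q‖ := by
  conv_rhs => rw [perp2 h]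
  rw [norm_smul, norm_eu, mul_one, Real.norm_eq_abs]

theorem dl_eu (μ : ℝ) : dl en μ eu = μ • eu := by
  refine dl_perp μ ?_
  rw [in_en]; simp [eu]

variable {F : E2 → ℝ}

theorem Z2a (hF : Gr en F) {W : E2 ≃L[ℝ] E2} (hW : SM F W) {p t : ℝ} (h1 : W eu = p • eu)
    (h2 : W en = t • en) (hp : |p| < 1) (ht : 1 ≤ |t|) : ∃ k : ℝ, ∀ q, F q = inner ℝ en q + k := by
  refine lemmaZ hF norm_en hW ht (abs_nonneg p) hp h2 fun v hv => ?_
  have h3 : W v = (v 0 * p) • eu := by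
    conv_lhs => rw [perp2 hv]
    rw [map_smul, h1, smul_smul]
  have h4 : inner ℝ en eu = (0 : ℝ) := by rw [in_en]; simp [eu]
  refine ⟨by rw [h3, inner_smul_right, h4, mul_zero], ?_⟩
  rw [h3, norm_smul, norm_eu, mul_one, Real.norm_eq_abs, abs_mul, perp2_norm hv, mul_comm]

theorem Z2b (hF : Gr en F) {W : E2 ≃L[ℝ] E2} (hW : SM F W) {p t : ℝ} (h1 : W eu = p • eu)
    (h2 : W en = t • en) (hp0 : p ≠ 0) (hp : |p| ≠ 1) (ht : |t| = 1) :
    ∃ k : ℝ, ∀ q, F q = inner ℝ en q + k := by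
  refine lemmaZs hF norm_en hW ht (abs_pos.2 hp0) hp h2 fun v hv => ?_
  have h3 : W v = (v 0 * p) • eu := by
    conv_lhs => rw [perp2 hv]
    rw [map_smul, h1, smul_smul]
  have h4 : inner ℝ en eu = (0 : ℝ) := by rw [in_en]; simp [eu]
  refine ⟨by rw [h3, inner_smul_right, h4, mul_zero], ?_⟩
  rw [h3, norm_smul, norm_eu, mul_one, Real.norm_eq_abs, abs_mul, perp2_norm hv, mul_comm]

theorem Zlat (hF : Gr en F) {W W' : E2 ≃L[ℝ] E2} (hW : SM F W) (hW' : SM F W') {p t p' t' : ℝ}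
    (h1 : W eu = p • eu) (h2 : W en = t • en) (h1' : W' eu = p' • eu) (h2' : W' en = t' • en)
    (hp : p ≠ 0) (ht : t ≠ 0) (hp' : p' ≠ 0) (ht' : t' ≠ 0)
    (h : Real.log |p| * Real.log |t'| ≠ Real.log |p'| * Real.log |t|) :
    ∃ k : ℝ, ∀ q, F q = inner ℝ en q + k := by
  obtain ⟨i, j, hi, hj⟩ := lattice h
  have s := (hW.zpow i).mul (hW'.zpow j)
  have e1 : (W ^ i * W' ^ j) eu = (p ^ i * p' ^ j) • eu := by
    rw [mul_app, zpow_eig hp' h1', map_smul, zpow_eig hp h1, smul_smul, mul_comm]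
  have e2 : (W ^ i * W' ^ j) en = (t ^ i * t' ^ j) • en := by
    rw [mul_app, zpow_eig ht' h2', map_smul, zpow_eig ht h2, smul_smul, mul_comm]
  have key : ∀ x y : ℝ, x ≠ 0 → y ≠ 0 → Real.log |x ^ i * y ^ j| =
      i * Real.log |x| + j * Real.log |y| := by
    intro x y hx hy
    rw [Real.log_abs, Real.log_mul (zpow_ne_zero _ hx) (zpow_ne_zero _ hy), Real.log_zpow,
      Real.log_zpow, Real.log_abs, Real.log_abs]
  refine Z2a hF s e1 e2 ?_ ?_
  · have hpos : 0 < |p ^ i * p' ^ j| :=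
      abs_pos.2 (mul_ne_zero (zpow_ne_zero _ hp) (zpow_ne_zero _ hp'))
    rw [← Real.log_neg_iff hpos, key p p' hp hp']
    exact hi
  · have hpos : 0 < |t ^ i * t' ^ j| :=
      abs_pos.2 (mul_ne_zero (zpow_ne_zero _ ht) (zpow_ne_zero _ ht'))
    rw [← Real.log_nonneg_iff hpos, key t t' ht ht']
    exact hj

/-- planar self-map data -/
def PL2 (F : E2 → ℝ) (κ c : ℝ) : Prop :=
  ∃ (O : E2 ≃ₗᵢ[ℝ] E2) (M : E2 ≃L[ℝ] E2), SM F M ∧
    ∀ q, M q = lam κ c • dl en (c / lam κ c) (O q)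

theorem PL2.sgn (hF : Gr en F) {κ c : ℝ} (h : PL2 F κ c) :
    ∃ (O : E2 ≃ₗᵢ[ℝ] E2) (M : E2 ≃L[ℝ] E2) (ε : ℝ), (ε = 1 ∨ ε = -1) ∧ SM F M ∧
      (∀ q, M q = (ε * lam κ c) • dl en (c / lam κ c) (O q)) ∧
      ∀ v, v ∈ VC F ↔ dl en (c / lam κ c) (O v) ∈ VC F := by
  obtain ⟨O, M, hM, hMO⟩ := h
  obtain ⟨ε, hε, hV⟩ := hM.cone hF
  obtain ⟨O', hO'⟩ := sgn_iso O hε
  have hε2 : ε * ε = 1 := by rcases hε with h | h <;> rw [h] <;> norm_num
  have hl := lam_pos κ c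
  refine ⟨O', M, ε, hε, hM, fun v => ?_, fun v => ?_⟩
  · rw [hO', dl_smul, smul_smul, hMO]
    congr 1
    calc lam κ c = (ε * ε) * lam κ c := by rw [hε2, one_mul]
      _ = _ := by ring
  · rw [hV, hMO, hO', dl_smul]
    have h1 : ε • lam κ c • dl en (c / lam κ c) (O v) =
        lam κ c • (ε • dl en (c / lam κ c) (O v)) := by
      rw [smul_smul, smul_smul, mul_comm]
    rw [h1]
    constructor
    · intro h
      have := VC.smul h (inv_nonneg.2 hl.le)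
      rwa [smul_smul, inv_mul_cancel₀ hl.ne', one_smul] at this
    · intro h
      exact VC.smul h hl.le

/-- diagonal or antidiagonal -/
theorem planar_da {κ c ε : ℝ} (hε : ε = 1 ∨ ε = -1) {O : E2 ≃ₗᵢ[ℝ] E2}
    {M : E2 ≃L[ℝ] E2} (hMO : ∀ q, M q = (ε * lam κ c) • dl en (c / lam κ c) (O q))
    (h : O.symm en = en ∨ inner ℝ en (O.symm en) = (0 : ℝ)) :
    (∃ η θ : ℝ, |η| = 1 ∧ |θ| = 1 ∧ M eu = (η * c) • eu ∧ M en = (θ * lam κ c) • en) ∨
    (∃ η θ : ℝ, |η| = 1 ∧ |θ| = 1 ∧ M eu = (η * lam κ c) • en ∧ M en = (θ * c) • eu) := by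
  have hεa : |ε| = 1 := by rcases hε with h | h <;> rw [h] <;> norm_num
  have hl := (lam_pos κ c).ne'
  have h0 : inner ℝ en eu = (0 : ℝ) := by rw [in_en]; simp [eu]
  rcases h with h | h
  · left
    have hOe : O en = en := by
      conv_lhs => rw [← h]
      rw [O.apply_symm_apply]
    have h1 : inner ℝ en (O eu) = (0 : ℝ) := by
      rw [← h0, ← O.inner_map_map en eu, hOe]
    have h2 := perp2 h1
    have h3 := perp2_norm h1
    rw [O.norm_map, norm_eu] at h3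
    refine ⟨ε * (O eu) 0, ε, by rw [abs_mul, hεa, h3, one_mul], hεa, ?_, ?_⟩
    · rw [hMO, h2, dl_smul, dl_eu, smul_smul, smul_smul, ← h2]
      congr 1
      field_simp
    · rw [hMO, hOe, dl_self norm_en]
  · right
    set x := O.symm en with hx
    have hOx : O x = en := O.apply_symm_apply en
    have h2 := perp2 h
    have h3 := perp2_norm h
    rw [hx, O.symm.norm_map, norm_en, ← hx] at h3
    have hx0 : x 0 ≠ 0 := by
      intro h4
      rw [h4, abs_zero] at h3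
      exact zero_ne_one h3
    have hOu : O eu = (x 0)⁻¹ • en := by
      rw [h2, map_smul] at hOx
      rw [← hOx, smul_smul, inv_mul_cancel₀ hx0, one_smul]
    have h4 : inner ℝ en (O en) = (0 : ℝ) := by
      conv_lhs => rw [← hOx]
      rw [O.inner_map_map, hOx, real_inner_comm]
      exact h
    have h5 := perp2 h4
    have h6 := perp2_norm h4
    rw [O.norm_map, norm_en] at h6
    refine ⟨ε * (x 0)⁻¹, ε * (O en) 0, by rw [abs_mul, hεa, abs_inv, h3]; norm_num,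
      by rw [abs_mul, hεa, h6, one_mul], ?_, ?_⟩
    · rw [hMO, hOu, dl_smul, dl_self norm_en, smul_smul]
      congr 1
      ring
    · rw [hMO, h5, dl_smul, dl_eu, smul_smul, smul_smul, ← h5]
      congr 1
      field_simp

/-- the pointed planar case -/
theorem planar_pointed (hF : Gr en F) (hp : ∀ v, v ∈ VC F → -v ∈ VC F → v = 0)
    {κ c₁ c₂ : ℝ} (hc₁ : 0 < c₁) (hc₂ : 0 < c₂) (h1 : c₁ ≠ 1) (h2 : c₂ ≠ 1) (h12 : c₁ ≠ c₂)
    (H₁ : PL2 F κ c₁) (H₂ : PL2 F κ c₂) : ∃ k : ℝ, ∀ q, F q = inner ℝ en q + k := by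
  obtain ⟨O₁, M₁, ε₁, hε₁, hM₁, hMO₁, hV₁⟩ := H₁.sgn hF
  obtain ⟨O₂, M₂, ε₂, hε₂, hM₂, hMO₂, hV₂⟩ := H₂.sgn hF
  have hl₁ := lam_pos κ c₁
  have hl₂ := lam_pos κ c₂
  have hVc := VC.cc hF
  obtain ⟨i1, i2, st⟩ := cone_thm norm_en hVc (VC.e_mem hF) hp (div_pos hc₁ hl₁)
    (div_pos hc₂ hl₂) (fun h => lam_ne hc₁ h1 ((div_eq_one_iff_eq hl₁.ne').1 h).symm)
    (fun h => lam_ne hc₂ h2 ((div_eq_one_iff_eq hl₂.ne').1 h).symm)
    (fun h => h12 (mu_inj hc₁ hc₂ ((div_eq_div_iff hl₁.ne' hl₂.ne').1 h))) hV₁ hV₂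
  have d1 := planar_da hε₁ hMO₁ (by
    rcases (st.map_symm i1).ortho hVc hp st with h | h
    · exact Or.inl h
    · right; rw [real_inner_comm]; exact h)
  have d2 := planar_da hε₂ hMO₂ (by
    rcases (st.map_symm i2).ortho hVc hp st with h | h
    · exact Or.inl h
    · right; rw [real_inner_comm]; exact h)
  have ab : ∀ {x y : ℝ}, |x| = 1 → 0 < y → |x * y| = y := by
    intro x y hx hy; rw [abs_mul, hx, one_mul, abs_of_pos hy]
  have nz : ∀ {x y : ℝ}, |x| = 1 → 0 < y → x * y ≠ 0 := by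
    intro x y hx hy h
    have := ab hx hy
    rw [h, abs_zero] at this
    exact hy.ne this
  have lnz : ∀ {x : ℝ}, |x| = 1 → x ≠ 0 := by
    intro x hx h
    rw [h, abs_zero] at hx
    exact zero_ne_one hx
  rcases d1 with ⟨η₁, θ₁, hη₁, hθ₁, u1, v1⟩ | ⟨η₁, θ₁, hη₁, hθ₁, u1, v1⟩
  · by_cases hκ : κ = 0
    · refine Z2b hF hM₁ u1 v1 (nz hη₁ hc₁) (by rw [ab hη₁ hc₁]; exact h1) ?_
      rw [ab hθ₁ hl₁, hκ, lam_zero]
    rcases d2 with ⟨η₂, θ₂, hη₂, hθ₂, u2, v2⟩ | ⟨η₂, θ₂, hη₂, hθ₂, u2, v2⟩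
    · refine Zlat hF hM₁ hM₂ u1 v1 u2 v2 (nz hη₁ hc₁) (nz hθ₁ hl₁) (nz hη₂ hc₂) (nz hθ₂ hl₂) ?_
      rw [ab hη₁ hc₁, ab hθ₁ hl₁, ab hη₂ hc₂, ab hθ₂ hl₂]
      exact exponents_ne hκ hc₁ h1 hc₂ h2 h12
    · have u3 : (M₂ * M₂) eu = ((η₂ * θ₂) * (c₂ * lam κ c₂)) • eu := by
        rw [mul_app, u2, map_smul, v2, smul_smul]; congr 1; ring
      have v3 : (M₂ * M₂) en = ((η₂ * θ₂) * (c₂ * lam κ c₂)) • en := by
        rw [mul_app, v2, map_smul, u2, smul_smul]; congr 1; ring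
      have hηθ : |η₂ * θ₂| = 1 := by rw [abs_mul, hη₂, hθ₂, one_mul]
      have hcl : 0 < c₂ * lam κ c₂ := mul_pos hc₂ hl₂
      refine Zlat hF hM₁ (hM₂.mul hM₂) u1 v1 u3 v3 (nz hη₁ hc₁) (nz hθ₁ hl₁) (nz hηθ hcl)
        (nz hηθ hcl) ?_
      rw [ab hη₁ hc₁, ab hθ₁ hl₁, ab hηθ hcl, Real.log_mul hc₂.ne' hl₂.ne']
      intro h
      have h3 := log_mul_lam_ne hκ hc₂ h2
      have h4 := log_ne_log_lam (κ := κ) hc₁ h1
      rw [mul_comm] at h
      exact h4 (mul_left_cancel₀ h3 h)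
  · rcases d2 with ⟨η₂, θ₂, hη₂, hθ₂, u2, v2⟩ | ⟨η₂, θ₂, hη₂, hθ₂, u2, v2⟩
    · by_cases hκ : κ = 0
      · refine Z2b hF hM₂ u2 v2 (nz hη₂ hc₂) (by rw [ab hη₂ hc₂]; exact h2) ?_
        rw [ab hθ₂ hl₂, hκ, lam_zero]
      have u3 : (M₁ * M₁) eu = ((η₁ * θ₁) * (c₁ * lam κ c₁)) • eu := by
        rw [mul_app, u1, map_smul, v1, smul_smul]; congr 1; ring
      have v3 : (M₁ * M₁) en = ((η₁ * θ₁) * (c₁ * lam κ c₁)) • en := by
        rw [mul_app, v1, map_smul, u1, smul_smul]; congr 1; ring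
      have hηθ : |η₁ * θ₁| = 1 := by rw [abs_mul, hη₁, hθ₁, one_mul]
      have hcl : 0 < c₁ * lam κ c₁ := mul_pos hc₁ hl₁
      refine Zlat hF hM₂ (hM₁.mul hM₁) u2 v2 u3 v3 (nz hη₂ hc₂) (nz hθ₂ hl₂) (nz hηθ hcl)
        (nz hηθ hcl) ?_
      rw [ab hη₂ hc₂, ab hθ₂ hl₂, ab hηθ hcl, Real.log_mul hc₁.ne' hl₁.ne']
      intro h
      have h3 := log_mul_lam_ne hκ hc₁ h1
      have h4 := log_ne_log_lam (κ := κ) hc₂ h2
      rw [mul_comm] at h
      exact h4 (mul_left_cancel₀ h3 h)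
    · -- both antidiagonal
      have i1 : M₂⁻¹ en = (η₂ * lam κ c₂)⁻¹ • eu := by
        have h3 : M₂ ((η₂ * lam κ c₂)⁻¹ • eu) = en := by
          rw [map_smul, u2, smul_smul, inv_mul_cancel₀ (nz hη₂ hl₂), one_smul]
        conv_lhs => rw [← h3]
        rw [inv_apply']
      have i2 : M₂⁻¹ eu = (θ₂ * c₂)⁻¹ • en := by
        have h3 : M₂ ((θ₂ * c₂)⁻¹ • en) = eu := by
          rw [map_smul, v2, smul_smul, inv_mul_cancel₀ (nz hθ₂ hc₂), one_smul]
        conv_lhs => rw [← h3]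
        rw [inv_apply']
      have u4 : (M₁ * M₂⁻¹) eu = ((θ₁ * θ₂⁻¹) * (c₁ / c₂)) • eu := by
        rw [mul_app, i2, map_smul, v1, smul_smul]
        congr 1
        have := lnz hθ₂
        field_simp
      have v4 : (M₁ * M₂⁻¹) en = ((η₁ * η₂⁻¹) * (lam κ c₁ / lam κ c₂)) • en := by
        rw [mul_app, i1, map_smul, u1, smul_smul]
        congr 1
        have := lnz hη₂
        field_simp
      have hθ : |θ₁ * θ₂⁻¹| = 1 := by rw [abs_mul, abs_inv, hθ₁, hθ₂]; norm_num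
      have hη : |η₁ * η₂⁻¹| = 1 := by rw [abs_mul, abs_inv, hη₁, hη₂]; norm_num
      have hcc : 0 < c₁ / c₂ := div_pos hc₁ hc₂
      have hll : 0 < lam κ c₁ / lam κ c₂ := div_pos hl₁ hl₂
      by_cases hκ : κ = 0
      · refine Z2b hF (hM₁.mul hM₂.inv) u4 v4 (nz hθ hcc) ?_ ?_
        · rw [ab hθ hcc]
          intro h
          exact h12 ((div_eq_one_iff_eq hc₂.ne').1 h)
        · rw [ab hη hll, hκ, lam_zero, lam_zero]; norm_num
      have u3 : (M₁ * M₁) eu = ((η₁ * θ₁) * (c₁ * lam κ c₁)) • eu := by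
        rw [mul_app, u1, map_smul, v1, smul_smul]; congr 1; ring
      have v3 : (M₁ * M₁) en = ((η₁ * θ₁) * (c₁ * lam κ c₁)) • en := by
        rw [mul_app, v1, map_smul, u1, smul_smul]; congr 1; ring
      have hηθ : |η₁ * θ₁| = 1 := by rw [abs_mul, hη₁, hθ₁, one_mul]
      have hcl : 0 < c₁ * lam κ c₁ := mul_pos hc₁ hl₁
      refine Zlat hF (hM₁.mul hM₁) (hM₁.mul hM₂.inv) u3 v3 u4 v4 (nz hηθ hcl) (nz hηθ hcl)
        (nz hθ hcc) (nz hη hll) ?_
      rw [ab hηθ hcl, ab hθ hcc, ab hη hll]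
      intro h
      have h3 : Real.log (c₁ * lam κ c₁) ≠ 0 := by
        rw [Real.log_mul hc₁.ne' hl₁.ne']; exact log_mul_lam_ne hκ hc₁ h1
      have h4 : Real.log (lam κ c₁ / lam κ c₂) = Real.log (c₁ / c₂) := by
        rw [mul_comm (Real.log (c₁ / c₂))] at h
        exact mul_left_cancel₀ h3 h
      have h5 := Real.log_injOn_pos (Set.mem_Ioi.2 hll) (Set.mem_Ioi.2 hcc) h4
      rw [div_eq_div_iff hl₂.ne' hc₂.ne'] at h5
      apply h12
      apply mu_inj (κ := κ) hc₁ hc₂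
      linarith

/-- the planar theorem -/
theorem planar (hF : Gr en F) {κ c₁ c₂ : ℝ} (hc₁ : 0 < c₁) (hc₂ : 0 < c₂) (h1 : c₁ ≠ 1)
    (h2 : c₂ ≠ 1) (h12 : c₁ ≠ c₂) (H₁ : PL2 F κ c₁) (H₂ : PL2 F κ c₂) : Aff F := by
  by_cases hp : ∀ v, v ∈ VC F → -v ∈ VC F → v = 0
  · obtain ⟨k, hk⟩ := planar_pointed hF hp hc₁ hc₂ h1 h2 h12 H₁ H₂
    exact ⟨en, k, hk⟩
  · push Not at hp
    obtain ⟨v, hv, hv', hv0⟩ := hp
    have hinv := lin_inv hv hv'
    have hv00 : v 0 ≠ 0 := by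
      intro h
      apply hv0
      have h3 := dec2 v
      rw [h, zero_smul, zero_add] at h3
      have h4 := hinv 0 1
      rw [one_smul, h3, hF.tr] at h4
      have h5 : v 1 = 0 := by linarith
      rw [h3, h5, zero_smul]
    refine ⟨(-(v 1 / v 0)) • eu + en, F 0, fun q => ?_⟩
    have h3 : q = (0 + (q 1 - q 0 * (v 1 / v 0)) • en) + (q 0 / v 0) • v := by
      ext i
      fin_cases i
      · simp [en, hv00]
      · simp [en]; ring
    conv_lhs => rw [h3]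
    rw [hinv, hF.tr, inner_add_left, inner_smul_left, in_en, in_eu]
    simp only [conj_trivial]
    ring

end Pool.Helper824.HR
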