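import Pool.Agent.Helper824_hr.Quad

open Set Filter Topology

namespace Pool.Helper824.HR

variable {E : Type*} [NormedAddCommGroup E] [InnerProductSpace ℝ E]

/-- there is a self-map whose linear part is a linear isometry followed by the dilation. -/
def HL (e : E) (F : E → ℝ) (c : ℝ) : Prop :=
  ∃ (A : E ≃ₗᵢ[ℝ] E) (L : E ≃L[ℝ] E), SM F L ∧ ∀ v, L v = dl e c (A v)

theorem VC.cc {e : E} {F : E → ℝ} (hF : Gr e F) : CC (VC F) :=
  ⟨VC.closed hF, fun _ hv _ hw => VC.add hv hw, fun _ hv _ ha => VC.smul hv ha⟩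

theorem sgn_iso (A : E ≃ₗᵢ[ℝ] E) {ε : ℝ} (hε : ε = 1 ∨ ε = -1) :
    ∃ A' : E ≃ₗᵢ[ℝ] E, ∀ v, A' v = ε • A v := by
  rcases hε with h | h
  · exact ⟨A, fun v => by rw [h, one_smul]⟩
  · refine ⟨A.trans (LinearIsometryEquiv.neg ℝ), fun v => ?_⟩
    rw [h]; simp

theorem HL.sgn {e : E} {F : E → ℝ} (hF : Gr e F) {c : ℝ} (h : HL e F c) :
    ∃ (A : E ≃ₗᵢ[ℝ] E) (L : E ≃L[ℝ] E) (ε : ℝ), (ε = 1 ∨ ε = -1) ∧ SM F L ∧
      (∀ v, L v = ε • dl e c (A v)) ∧ ∀ v, v ∈ VC F ↔ dl e c (A v) ∈ VC F := by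
  obtain ⟨A, L, hL, hLA⟩ := h
  obtain ⟨ε, hε, hV⟩ := hL.cone hF
  obtain ⟨A', hA'⟩ := sgn_iso A hε
  have hε2 : ε * ε = 1 := by rcases hε with h | h <;> rw [h] <;> norm_num
  refine ⟨A', L, ε, hε, hL, fun v => ?_, fun v => ?_⟩
  · rw [hA', dl_smul, smul_smul, hε2, one_smul, hLA]
  · rw [hV, hLA, hA', dl_smul]

theorem fixed_dir [CompleteSpace E] {e : E} {F : E → ℝ} (hF : Gr e F) (he : ‖e‖ = 1) {c ε : ℝ}
    (hc : 0 < c) (hc1 : c ≠ 1) (hε : ε = 1 ∨ ε = -1) {A : E ≃ₗᵢ[ℝ] E} {L : E ≃L[ℝ] E}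
    (hL : SM F L) (hLA : ∀ v, L v = ε • dl e c (A v)) (hA : A e = e) :
    ∃ k : ℝ, ∀ p, F p = inner ℝ e p + k := by
  have hεa : |ε| = 1 := by rcases hε with h | h <;> rw [h] <;> norm_num
  refine lemmaZs hF he hL hεa hc hc1 (by rw [hLA, hA, dl_self he]) fun v hv => ?_
  have h1 : inner ℝ e (A v) = (0 : ℝ) := by
    rw [← hv, ← A.inner_map_map e v, hA]
  rw [hLA, dl_perp c h1]
  refine ⟨?_, ?_⟩
  · rw [inner_smul_right, inner_smul_right, h1]; simp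
  · rw [norm_smul, norm_smul, A.norm_map, Real.norm_eq_abs, hεa, Real.norm_of_nonneg hc.le, one_mul]

theorem two_dir [CompleteSpace E] {e : E} {F : E → ℝ} (hF : Gr e F) (he : ‖e‖ = 1)
    {c₁ c₂ ε₁ ε₂ : ℝ} (hc₁ : 0 < c₁) (hc₂ : 0 < c₂) (h12 : c₁ ≠ c₂) (hε₁ : ε₁ = 1 ∨ ε₁ = -1)
    (hε₂ : ε₂ = 1 ∨ ε₂ = -1) {A₁ A₂ : E ≃ₗᵢ[ℝ] E} {L₁ L₂ : E ≃L[ℝ] E}
    (hL₁ : SM F L₁) (hL₂ : SM F L₂) (hLA₁ : ∀ v, L₁ v = ε₁ • dl e c₁ (A₁ v))
    (hLA₂ : ∀ v, L₂ v = ε₂ • dl e c₂ (A₂ v)) (hA : A₁.symm e = A₂.symm e) :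
    ∃ k : ℝ, ∀ p, F p = inner ℝ e p + k := by
  have hε₁a : |ε₁| = 1 := by rcases hε₁ with h | h <;> rw [h] <;> norm_num
  have hε₂a : |ε₂| = 1 := by rcases hε₂ with h | h <;> rw [h] <;> norm_num
  have hε₂2 : ε₂ * ε₂ = 1 := by rcases hε₂ with h | h <;> rw [h] <;> norm_num
  -- inverse of L₂
  have hinv : ∀ v, L₂⁻¹ v = ε₂ • A₂.symm (dl e c₂⁻¹ v) := by
    intro v
    have h1 : L₂ (ε₂ • A₂.symm (dl e c₂⁻¹ v)) = v := by
      rw [map_smul, hLA₂, A₂.apply_symm_apply, dl_inv he hc₂.ne', smul_smul, hε₂2, one_smul]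
    conv_lhs => rw [← h1]
    rw [inv_apply']
  refine lemmaZs hF he (hL₁.mul hL₂.inv) (σ := ε₁ * ε₂) (ρ := c₁ * c₂⁻¹)
    (by rw [abs_mul, hε₁a, hε₂a, one_mul]) (by positivity) ?_ ?_ fun v hv => ?_
  · intro h
    apply h12
    field_simp at h
    exact h
  · rw [mul_app, hinv, dl_self he, ← hA, hLA₁, map_smul, A₁.apply_symm_apply, dl_smul, dl_self he,
      smul_smul]
  · rw [mul_app, hinv, dl_perp _ hv, hLA₁]
    have h1 : inner ℝ e (A₁ (A₂.symm v)) = (0 : ℝ) := by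
      have h2 : e = A₁ (A₂.symm e) := by rw [← hA, A₁.apply_symm_apply]
      conv_lhs => rw [h2]
      rw [A₁.inner_map_map, A₂.symm.inner_map_map, hv]
    rw [map_smul, map_smul, map_smul, dl_smul, dl_smul, dl_perp _ h1]
    refine ⟨?_, ?_⟩
    · simp only [inner_smul_right, h1]; simp
    · simp only [norm_smul, A₁.norm_map, A₂.symm.norm_map, Real.norm_eq_abs, hε₁a, hε₂a]
      rw [abs_of_pos (inv_pos.2 hc₂), abs_of_pos hc₁]
      ring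

/-- a pointed cone in dimension three -/
theorem pointed3 [FiniteDimensional ℝ E] (h3 : Module.finrank ℝ E = 3) {e : E} {F : E → ℝ}
    (hF : Gr e F) (he : ‖e‖ = 1) (hp : ∀ v, v ∈ VC F → -v ∈ VC F → v = 0)
    {c₁ c₂ : ℝ} (hc₁ : 0 < c₁) (hc₂ : 0 < c₂) (h1 : c₁ ≠ 1) (h2 : c₂ ≠ 1) (h12 : c₁ ≠ c₂)
    (H₁ : HL e F c₁) (H₂ : HL e F c₂) :
    ∃ k : ℝ, ∀ p, F p = inner ℝ e p + k := by
  obtain ⟨A₁, L₁, ε₁, hε₁, hL₁, hLA₁, hV₁⟩ := H₁.sgn hF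
  obtain ⟨A₂, L₂, ε₂, hε₂, hL₂, hLA₂, hV₂⟩ := H₂.sgn hF
  have hVc := VC.cc hF
  obtain ⟨i1, i2, st⟩ := cone_thm he hVc (VC.e_mem hF) hp hc₁ hc₂ h1 h2 h12 hV₁ hV₂
  set P := A₁.symm e with hP
  set S := A₂.symm e with hS
  have sP : Star (VC F) P := st.map_symm i1
  have sS : Star (VC F) S := st.map_symm i2
  have A1P : A₁ P = e := A₁.apply_symm_apply e
  have A2S : A₂ S = e := A₂.apply_symm_apply e
  by_cases hPe' : P = e
  · exact fixed_dir hF he hc₁ h1 hε₁ hL₁ hLA₁ (by rw [← hPe', A1P, hPe'])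
  by_cases hSe' : S = e
  · exact fixed_dir hF he hc₂ h2 hε₂ hL₂ hLA₂ (by rw [← hSe', A2S, hSe'])
  by_cases hPS' : P = S
  · exact two_dir hF he hc₁ hc₂ h12 hε₁ hε₂ hL₁ hL₂ hLA₁ hLA₂ hPS'
  have hPe : inner ℝ P e = (0 : ℝ) := (sP.ortho hVc hp st).resolve_left hPe'
  have hSe : inner ℝ S e = (0 : ℝ) := (sS.ortho hVc hp st).resolve_left hSe'
  have hPS : inner ℝ P S = (0 : ℝ) := (sP.ortho hVc hp sS).resolve_left hPS'
  have tri : ∀ a, Star (VC F) a → a = P ∨ a = S ∨ a = e := by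
    intro a ha
    by_contra hcon
    push Not at hcon
    have o1 : inner ℝ P a = (0 : ℝ) := (sP.ortho hVc hp ha).resolve_left (Ne.symm hcon.1)
    have o2 : inner ℝ S a = (0 : ℝ) := (sS.ortho hVc hp ha).resolve_left (Ne.symm hcon.2.1)
    have o3 : inner ℝ e a = (0 : ℝ) := (st.ortho hVc hp ha).resolve_left (Ne.symm hcon.2.2)
    have h4 := onb3 h3 sP.norm sS.norm he hPS hPe hSe a
    rw [o1, o2, o3] at h4
    simp only [zero_smul, add_zero] at h4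
    have h5 := ha.norm
    rw [h4, norm_zero] at h5
    exact zero_ne_one h5
  have t1 : (A₁ e = P ∧ A₁ S = S) ∨ (A₁ e = S ∧ A₁ S = P) := by
    have ne1 : A₁ e ≠ e := fun h => hPe' (by rw [hP]; conv_lhs => rw [← h]
                                             rw [A₁.symm_apply_apply])
    have ne2 : A₁ S ≠ e := fun h => hPS' (A₁.injective (by rw [A1P, h]))
    have ne3 : A₁ e ≠ A₁ S := fun h => hSe' (A₁.injective h).symm
    rcases tri _ (st.map i1) with h | h | h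
    · rcases tri _ (sS.map i1) with h' | h' | h'
      · exact absurd (h.trans h'.symm) ne3
      · exact Or.inl ⟨h, h'⟩
      · exact absurd h' ne2
    · rcases tri _ (sS.map i1) with h' | h' | h'
      · exact Or.inr ⟨h, h'⟩
      · exact absurd (h.trans h'.symm) ne3
      · exact absurd h' ne2
    · exact absurd h ne1
  have t2 : (A₂ e = S ∧ A₂ P = P) ∨ (A₂ e = P ∧ A₂ P = S) := by
    have ne1 : A₂ e ≠ e := fun h => hSe' (by rw [hS]; conv_lhs => rw [← h]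
                                             rw [A₂.symm_apply_apply])
    have ne2 : A₂ P ≠ e := fun h => hPS' (A₂.injective (by rw [A2S, h]))
    have ne3 : A₂ e ≠ A₂ P := fun h => hPe' (A₂.injective h).symm
    rcases tri _ (st.map i2) with h | h | h
    · rcases tri _ (sP.map i2) with h' | h' | h'
      · exact absurd (h.trans h'.symm) ne3
      · exact Or.inr ⟨h, h'⟩
      · exact absurd h' ne2
    · rcases tri _ (sP.map i2) with h' | h' | h'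
      · exact Or.inl ⟨h, h'⟩
      · exact absurd (h.trans h'.symm) ne3
      · exact absurd h' ne2
    · exact absurd h ne1
  have heP : inner ℝ e P = (0 : ℝ) := by rw [real_inner_comm]; exact hPe
  have heS : inner ℝ e S = (0 : ℝ) := by rw [real_inner_comm]; exact hSe
  have hSP : inner ℝ S P = (0 : ℝ) := by rw [real_inner_comm]; exact hPS
  have hε₁0 : ε₁ ≠ 0 := by rcases hε₁ with h | h <;> rw [h] <;> norm_num
  have hε₂0 : ε₂ ≠ 0 := by rcases hε₂ with h | h <;> rw [h] <;> norm_num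
  have hεc₁ : ε₁ * c₁ ≠ 0 := mul_ne_zero hε₁0 hc₁.ne'
  have hεc₂ : ε₂ * c₂ ≠ 0 := mul_ne_zero hε₂0 hc₂.ne'
  -- the values
  have toe₁ : ∀ x, A₁ x = e → L₁ x = ε₁ • e := by
    intro x hx; rw [hLA₁, hx, dl_self he]
  have toe₂ : ∀ x, A₂ x = e → L₂ x = ε₂ • e := by
    intro x hx; rw [hLA₂, hx, dl_self he]
  have top₁ : ∀ x y, inner ℝ e y = (0 : ℝ) → A₁ x = y → L₁ x = (ε₁ * c₁) • y := by
    intro x y hy hx; rw [hLA₁, hx, dl_perp _ hy, smul_smul]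
  have top₂ : ∀ x y, inner ℝ e y = (0 : ℝ) → A₂ x = y → L₂ x = (ε₂ * c₂) • y := by
    intro x y hy hx; rw [hLA₂, hx, dl_perp _ hy, smul_smul]
  rcases t1 with ⟨x1, x2⟩ | ⟨x1, x2⟩
  · refine typeA h3 hF sP.norm sS.norm he hPS hPe hSe hL₁ hL₂ hc₁ h1 hε₁ hε₂0 hεc₂ hεc₂
      (toe₁ P A1P) (top₁ e P heP x1) (top₁ S S heS x2) (toe₂ S A2S) ?_
    rcases t2 with ⟨y1, y2⟩ | ⟨y1, y2⟩
    · exact Or.inl ⟨top₂ e S heS y1, top₂ P P heP y2⟩
    · exact Or.inr ⟨top₂ e P heP y1, top₂ P S heS y2⟩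
  · rcases t2 with ⟨y1, y2⟩ | ⟨y1, y2⟩
    · refine typeA h3 hF sS.norm sP.norm he hSP hSe hPe hL₂ hL₁ hc₂ h2 hε₂ hε₁0 hεc₁ hεc₁
        (toe₂ S A2S) (top₂ e S heS y1) (top₂ P P heP y2) (toe₁ P A1P) ?_
      exact Or.inr ⟨top₁ e S heS x1, top₁ S P heP x2⟩
    · exact typeB h3 hF sP.norm sS.norm he hPS hPe hSe hL₁ hL₂ hc₁ h1 hc₂ h2 hε₁ hε₂
        (toe₁ P A1P) (top₁ e S heS x1) (top₁ S P heP x2) (toe₂ S A2S) (top₂ e P heP y1)
        (top₂ P S heS y2)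

end Pool.Helper824.HR
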