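import Pool.Agent.Helper824_hr.ConeThm

open Set Filter Topology

namespace Pool.Helper824.HR

variable {E : Type*} [NormedAddCommGroup E] [InnerProductSpace ℝ E]

/-- A linear isometry mapping a closed set into itself maps it onto itself. -/
theorem iso_inv [FiniteDimensional ℝ E] (T : E ≃ₗᵢ[ℝ] E) {S : Set E} (hS : IsClosed S)
    (h : ∀ x ∈ S, T x ∈ S) : ∀ x ∈ S, T.symm x ∈ S := by
  intro x hx
  have hn : ∀ n : ℕ, T^[n] x ∈ S := by
    intro n
    induction n with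
    | zero => exact hx
    | succ n ih => rw [Function.iterate_succ_apply']; exact h _ ih
  have hnorm : ∀ n : ℕ, T^[n] x ∈ Metric.closedBall (0 : E) ‖x‖ := by
    intro n
    rw [mem_closedBall_zero_iff]
    induction n with
    | zero => exact le_rfl
    | succ n ih => rw [Function.iterate_succ_apply', T.norm_map]; exact ih
  have : ProperSpace E := FiniteDimensional.proper_real E
  obtain ⟨a, _, φ, hφ, hlim⟩ := tendsto_subseq_of_bounded Metric.isBounded_closedBall hnorm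
  rw [← hS.closure_eq, Metric.mem_closure_iff]
  intro δ hδ
  obtain ⟨N, hN⟩ := Metric.tendsto_atTop.1 hlim (δ / 2) (half_pos hδ)
  have h1 := hN N le_rfl
  have h2 := hN (N + 1) (Nat.le_succ N)
  simp only [Function.comp_apply] at h1 h2
  have h3 : dist (T^[φ (N + 1)] x) (T^[φ N] x) < δ := by
    calc _ ≤ dist (T^[φ (N + 1)] x) a + dist a (T^[φ N] x) := dist_triangle _ _ _
      _ < δ := by rw [dist_comm a]; linarith
  have h4 : φ N < φ (N + 1) := hφ (Nat.lt_succ_self N)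
  obtain ⟨m, hm⟩ := Nat.exists_eq_add_of_lt h4
  have h5 : T^[φ (N + 1)] x = T^[φ N] (T^[m + 1] x) := by
    rw [← Function.iterate_add_apply, hm, add_assoc]
  have hiso : ∀ (k : ℕ) (y z : E), dist (T^[k] y) (T^[k] z) = dist y z := by
    intro k
    induction k with
    | zero => intro y z; rfl
    | succ k ih => intro y z; rw [Function.iterate_succ_apply, Function.iterate_succ_apply, ih,
        T.dist_map]
  rw [h5, hiso] at h3
  refine ⟨T^[m] x, hn m, ?_⟩
  rw [dist_comm, ← T.dist_map, T.apply_symm_apply, ← Function.iterate_succ_apply' T m x]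
  exact h3

/-- the property of `e` which is transported by isometries preserving the cone -/
structure Star (V : Set E) (a : E) : Prop where
  norm : ‖a‖ = 1
  mem : a ∈ V
  nonneg : ∀ v ∈ V, 0 ≤ (inner ℝ a v : ℝ)
  proj : ∀ v ∈ V, v - (inner ℝ a v : ℝ) • a ∈ V

theorem Star.map {V : Set E} {a : E} (h : Star V a) {A : E ≃ₗᵢ[ℝ] E}
    (hA : ∀ v, v ∈ V ↔ A v ∈ V) : Star V (A a) := by
  have hin : ∀ v, inner ℝ (A a) v = (inner ℝ a (A.symm v) : ℝ) := by
    intro v
    conv_lhs => rw [← A.apply_symm_apply v]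
    rw [A.inner_map_map]
  have hs : ∀ v, v ∈ V → A.symm v ∈ V := by
    intro v hv
    rw [hA, A.apply_symm_apply]; exact hv
  refine ⟨by rw [A.norm_map, h.norm], (hA a).1 h.mem, fun v hv => ?_, fun v hv => ?_⟩
  · rw [hin]
    exact h.nonneg _ (hs v hv)
  · rw [hin]
    have h1 := (hA _).1 (h.proj _ (hs v hv))
    rwa [map_sub, map_smul, A.apply_symm_apply] at h1

theorem Star.map_symm {V : Set E} {a : E} (h : Star V a) {A : E ≃ₗᵢ[ℝ] E}
    (hA : ∀ v, v ∈ V ↔ A v ∈ V) : Star V (A.symm a) := by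
  refine h.map (A := A.symm) fun v => ?_
  rw [hA (A.symm v), A.apply_symm_apply]

theorem Star.ortho {V : Set E} (hV : CC V) (hp : ∀ v, v ∈ V → -v ∈ V → v = 0) {a b : E}
    (ha : Star V a) (hb : Star V b) : a = b ∨ inner ℝ a b = (0 : ℝ) := by
  set t : ℝ := inner ℝ a b with ht
  have ht' : (inner ℝ b a : ℝ) = t := by rw [real_inner_comm]
  have t0 : 0 ≤ t := ha.nonneg b hb.mem
  rcases t0.eq_or_lt with h | h
  · right; exact h.symm
  · left
    have haa : inner ℝ a a = (1 : ℝ) := by rw [real_inner_self_eq_norm_sq, ha.norm]; norm_num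
    have hbb : inner ℝ b b = (1 : ℝ) := by rw [real_inner_self_eq_norm_sq, hb.norm]; norm_num
    have h1 : b - t • a ∈ V := ha.proj b hb.mem
    have h2 : a - t • b ∈ V := by
      have := hb.proj a ha.mem
      rwa [ht'] at this
    have h3 := ha.proj _ h2
    have h4 : a - t • b - (inner ℝ a (a - t • b) : ℝ) • a = t • (-(b - t • a)) := by
      rw [inner_sub_right, haa, inner_smul_right, ← ht, smul_neg, smul_sub, smul_smul, sub_smul,
        one_smul]
      abel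
    rw [h4] at h3
    have h5 := hV.smul _ h3 t⁻¹ (inv_nonneg.2 t0)
    rw [smul_smul, inv_mul_cancel₀ h.ne', one_smul] at h5
    have h6 := hp _ h1 h5
    have h7 : b = t • a := sub_eq_zero.1 h6
    have h8 : t = 1 := by
      have h9 := hb.norm
      rw [h7, norm_smul, ha.norm, mul_one, Real.norm_of_nonneg t0] at h9
      exact h9
    rw [h7, h8, one_smul]

theorem beta [FiniteDimensional ℝ E] {e : E} (he : ‖e‖ = 1) {V : Set E} (hV : CC V)
    (heV : e ∈ V) (h0 : ∀ v ∈ V, 0 ≤ (inner ℝ e v : ℝ)) {c : ℝ} (hc : 0 < c) (hc1 : c ≠ 1)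
    {A : E ≃ₗᵢ[ℝ] E} (hA : ∀ v, v ∈ V ↔ dl e c (A v) ∈ V) :
    (∀ v, v ∈ V ↔ A v ∈ V) ∧ Star V e := by
  have hcon : ∀ a : ℝ, 0 < a → a < 1 → ∀ v ∈ V, dl e a v ∈ V := by
    intro a ha ha1 v hv
    unfold dl
    exact hV.add _ (hV.smul v hv a ha.le) _
      (hV.smul e heV _ (mul_nonneg (by linarith) (h0 v hv)))
  have hAV : ∀ v, v ∈ V ↔ A v ∈ V := by
    rcases lt_or_gt_of_ne hc1 with h | h
    · have h1 : ∀ v ∈ V, A.symm v ∈ V := by
        intro v hv
        rw [hA, A.apply_symm_apply]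
        exact hcon c hc h v hv
      have h2 := iso_inv A.symm hV.closed h1
      intro v
      constructor
      · intro hv; exact h2 v hv
      · intro hv
        have := h1 _ hv
        rwa [A.symm_apply_apply] at this
    · have h1 : ∀ v ∈ V, A v ∈ V := by
        intro v hv
        have h2 := hcon c⁻¹ (inv_pos.2 hc) (inv_lt_one_of_one_lt₀ h) _ ((hA v).1 hv)
        rwa [dl_inv' he hc.ne'] at h2
      have h2 := iso_inv A hV.closed h1
      intro v
      constructor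
      · intro hv; exact h1 v hv
      · intro hv
        have := h2 _ hv
        rwa [A.symm_apply_apply] at this
  have hd : ∀ v, v ∈ V ↔ dl e c v ∈ V := by
    intro v
    have h1 : v ∈ V ↔ A.symm v ∈ V := by
      rw [hAV (A.symm v), A.apply_symm_apply]
    rw [h1, hA, A.apply_symm_apply]
  -- a dilation factor larger than one
  obtain ⟨ρ, hρ, hρV⟩ : ∃ ρ : ℝ, 1 < ρ ∧ ∀ v ∈ V, dl e ρ v ∈ V := by
    rcases lt_or_gt_of_ne hc1 with h | h
    · refine ⟨c⁻¹, (one_lt_inv₀ hc).2 h, fun v hv => ?_⟩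
      rw [hd, dl_inv he hc.ne']
      exact hv
    · exact ⟨c, h, fun v hv => (hd v).1 hv⟩
  have hpow : ∀ n : ℕ, ∀ v ∈ V, dl e (ρ ^ n) v ∈ V := by
    intro n
    induction n with
    | zero => intro v hv; rw [pow_zero, dl_one]; exact hv
    | succ n ih =>
      intro v hv
      rw [pow_succ, ← dl_dl he]
      exact ih _ (hρV v hv)
  refine ⟨hAV, he, heV, h0, fun v hv => ?_⟩
  have hρ0 : 0 < ρ := by linarith
  have h1 : ∀ n : ℕ, v + (((ρ ^ n)⁻¹ - 1) * inner ℝ e v) • e ∈ V := by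
    intro n
    have h2 := hV.smul _ (hpow n v hv) (ρ ^ n)⁻¹ (by positivity)
    unfold dl at h2
    have h3 : (ρ ^ n)⁻¹ • (ρ ^ n • v + ((1 - ρ ^ n) * inner ℝ e v) • e) =
        v + (((ρ ^ n)⁻¹ - 1) * inner ℝ e v) • e := by
      rw [smul_add, smul_smul, smul_smul, inv_mul_cancel₀ (by positivity), one_smul]
      congr 2
      field_simp
    rwa [h3] at h2
  have h2 : Tendsto (fun n : ℕ => v + (((ρ ^ n)⁻¹ - 1) * inner ℝ e v) • e) atTop
      (𝓝 (v + ((0 - 1) * inner ℝ e v) • e)) := by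
    have h3 : Tendsto (fun n : ℕ => (ρ ^ n)⁻¹) atTop (𝓝 0) :=
      tendsto_inv_atTop_zero.comp (tendsto_pow_atTop_atTop_of_one_lt hρ)
    exact (((h3.sub_const 1).mul_const _).smul_const e).const_add v
  have h3 := hV.closed.mem_of_tendsto h2 (Eventually.of_forall h1)
  have h4 : v + ((0 - 1) * inner ℝ e v) • e = v - (inner ℝ e v : ℝ) • e := by
    rw [zero_sub, neg_one_mul, neg_smul, ← sub_eq_add_neg]
  rwa [h4] at h3

/-- The abstract theorem on cones. -/
theorem cone_thm [FiniteDimensional ℝ E] {e : E} (he : ‖e‖ = 1) {V : Set E} (hV : CC V)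
    (heV : e ∈ V) (hp : ∀ v, v ∈ V → -v ∈ V → v = 0) {c₁ c₂ : ℝ} (hc₁ : 0 < c₁) (hc₂ : 0 < c₂)
    (h1 : c₁ ≠ 1) (h2 : c₂ ≠ 1) (h12 : c₁ ≠ c₂) {A₁ A₂ : E ≃ₗᵢ[ℝ] E}
    (hA₁ : ∀ v, v ∈ V ↔ dl e c₁ (A₁ v) ∈ V) (hA₂ : ∀ v, v ∈ V ↔ dl e c₂ (A₂ v) ∈ V) :
    (∀ v, v ∈ V ↔ A₁ v ∈ V) ∧ (∀ v, v ∈ V ↔ A₂ v ∈ V) ∧ Star V e := by
  have h3 := alpha he hV heV hp hc₁ hc₂ h1 h2 h12 hA₁ hA₂
  have h0 : ∀ v ∈ V, 0 ≤ (inner ℝ e v : ℝ) := by
    intro v hv
    rw [real_inner_comm]
    exact h3 v hv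
  have b1 := beta he hV heV h0 hc₁ h1 hA₁
  have b2 := beta he hV heV h0 hc₂ h2 hA₂
  exact ⟨b1.1, b2.1, b1.2⟩

end Pool.Helper824.HR
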