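import Pool.Agent.Helper824_hr.Basic
import Pool.Agent.Helper824_hr.Star

open Set Filter Topology

namespace Pool.Helper824.HR

variable {E : Type*} [NormedAddCommGroup E] [InnerProductSpace ℝ E]

theorem inv_apply {L : E ≃L[ℝ] E} (x : E) : L (L⁻¹ x) = x := L.apply_symm_apply x

theorem inv_apply' {L : E ≃L[ℝ] E} (x : E) : L⁻¹ (L x) = x := L.symm_apply_apply x

theorem mul_app (L M : E ≃L[ℝ] E) (x : E) : (L * M) x = L (M x) := rfl

/-- expanding version of `lemmaZ` -/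
theorem lemmaZ' [CompleteSpace E] {e : E} {F : E → ℝ} (hF : Gr e F) (he : ‖e‖ = 1)
    {W : E ≃L[ℝ] E} (hW : SM F W) {σ ρ : ℝ} (hσ0 : σ ≠ 0) (hσ : |σ| ≤ 1) (hρ : 1 < ρ)
    (hWe : W e = σ • e)
    (hperp : ∀ v, inner ℝ e v = 0 → inner ℝ e (W v) = 0 ∧ ρ * ‖v‖ ≤ ‖W v‖) :
    ∃ k : ℝ, ∀ p, F p = inner ℝ e p + k := by
  have hee : inner ℝ e e = (1 : ℝ) := by rw [real_inner_self_eq_norm_sq, he]; norm_num
  have hρ0 : 0 < ρ := by linarith
  refine lemmaZ hF he hW.inv (σ := σ⁻¹) (ρ := ρ⁻¹) ?_ (inv_nonneg.2 hρ0.le)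
    (inv_lt_one_of_one_lt₀ hρ) ?_ ?_
  · rw [abs_inv]
    exact (one_le_inv₀ (abs_pos.2 hσ0)).2 hσ
  · have h1 : W (σ⁻¹ • e) = e := by
      rw [map_smul, hWe, smul_smul, inv_mul_cancel₀ hσ0, one_smul]
    rw [← h1, inv_apply', h1]
  · intro v hv
    set u := W⁻¹ v with hu
    have hWu : W u = v := inv_apply v
    have hup : inner ℝ e (u - (inner ℝ e u : ℝ) • e) = (0 : ℝ) := by
      rw [inner_sub_right, inner_smul_right, hee]; ring
    have h1 : W u = W (u - (inner ℝ e u : ℝ) • e) + ((inner ℝ e u : ℝ) * σ) • e := by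
      rw [map_sub, map_smul, hWe, smul_smul]; abel
    have h2 : inner ℝ e (W u) = (inner ℝ e u : ℝ) * σ := by
      rw [h1, inner_add_right, (hperp _ hup).1, inner_smul_right, hee]; ring
    rw [hWu, hv] at h2
    have h3 : (inner ℝ e u : ℝ) = 0 := by
      rcases mul_eq_zero.1 h2.symm with h | h
      · exact h
      · exact absurd h hσ0
    refine ⟨h3, ?_⟩
    have h4 := (hperp u h3).2
    rw [hWu] at h4
    rw [inv_mul_eq_div, le_div_iff₀ hρ0, mul_comm]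
    exact h4

/-- similarity version of `lemmaZ` -/
theorem lemmaZs [CompleteSpace E] {e : E} {F : E → ℝ} (hF : Gr e F) (he : ‖e‖ = 1)
    {W : E ≃L[ℝ] E} (hW : SM F W) {σ ρ : ℝ} (hσ : |σ| = 1) (hρ0 : 0 < ρ) (hρ : ρ ≠ 1)
    (hWe : W e = σ • e)
    (hperp : ∀ v, inner ℝ e v = 0 → inner ℝ e (W v) = 0 ∧ ‖W v‖ = ρ * ‖v‖) :
    ∃ k : ℝ, ∀ p, F p = inner ℝ e p + k := by
  rcases lt_or_gt_of_ne hρ with h | h
  · exact lemmaZ hF he hW hσ.ge hρ0.le h hWe fun v hv => ⟨(hperp v hv).1, (hperp v hv).2.le⟩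
  · refine lemmaZ' hF he hW ?_ hσ.le h hWe fun v hv => ⟨(hperp v hv).1, (hperp v hv).2.ge⟩
    intro h0
    rw [h0, abs_zero] at hσ
    exact zero_ne_one hσ

/-- orthonormal expansion in dimension three -/
theorem onb3 [FiniteDimensional ℝ E] (h3 : Module.finrank ℝ E = 3) {P S e : E} (hP : ‖P‖ = 1)
    (hS : ‖S‖ = 1) (he : ‖e‖ = 1) (hPS : inner ℝ P S = (0 : ℝ)) (hPe : inner ℝ P e = (0 : ℝ))
    (hSe : inner ℝ S e = (0 : ℝ)) (v : E) :
    v = (inner ℝ P v : ℝ) • P + (inner ℝ S v : ℝ) • S + (inner ℝ e v : ℝ) • e := by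
  have hon : Orthonormal ℝ ![P, S, e] := by
    constructor
    · intro i; fin_cases i <;> simp [hP, hS, he]
    · intro i j hij
      have hSP : inner ℝ S P = (0 : ℝ) := by rw [real_inner_comm]; exact hPS
      have heP : inner ℝ e P = (0 : ℝ) := by rw [real_inner_comm]; exact hPe
      have heS : inner ℝ e S = (0 : ℝ) := by rw [real_inner_comm]; exact hSe
      fin_cases i <;> fin_cases j <;> simp_all
  let b := basisOfOrthonormalOfCardEqFinrank hon (by simp [h3])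
  have hb : (b : Fin 3 → E) = ![P, S, e] := coe_basisOfOrthonormalOfCardEqFinrank hon _
  let b' := b.toOrthonormalBasis (by rw [hb]; exact hon)
  have hb' : (b' : Fin 3 → E) = ![P, S, e] := by
    rw [Module.Basis.coe_toOrthonormalBasis, hb]
  have h := b'.sum_repr' v
  rw [Fin.sum_univ_three, hb'] at h
  simpa using h.symm

/-- diagonal maps with respect to `P, S, e` -/
def Dg (P S e : E) (W : E ≃L[ℝ] E) (p s t : ℝ) : Prop :=
  W P = p • P ∧ W S = s • S ∧ W e = t • e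

theorem Dg.mul {P S e : E} {W W' : E ≃L[ℝ] E} {p s t p' s' t' : ℝ} (h : Dg P S e W p s t)
    (h' : Dg P S e W' p' s' t') : Dg P S e (W * W') (p * p') (s * s') (t * t') := by
  refine ⟨?_, ?_, ?_⟩
  · rw [mul_app, h'.1, map_smul, h.1, smul_smul, mul_comm]
  · rw [mul_app, h'.2.1, map_smul, h.2.1, smul_smul, mul_comm]
  · rw [mul_app, h'.2.2, map_smul, h.2.2, smul_smul, mul_comm]

theorem inv_eig {W : E ≃L[ℝ] E} {x : E} {p : ℝ} (hp : p ≠ 0) (h : W x = p • x) :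
    W⁻¹ x = p⁻¹ • x := by
  have h1 : W (p⁻¹ • x) = x := by
    rw [map_smul, h, smul_smul, inv_mul_cancel₀ hp, one_smul]
  conv_lhs => rw [← h1]
  rw [inv_apply']

theorem Dg.inv {P S e : E} {W : E ≃L[ℝ] E} {p s t : ℝ} (h : Dg P S e W p s t)
    (hp : p ≠ 0) (hs : s ≠ 0) (ht : t ≠ 0) : Dg P S e W⁻¹ p⁻¹ s⁻¹ t⁻¹ :=
  ⟨inv_eig hp h.1, inv_eig hs h.2.1, inv_eig ht h.2.2⟩

theorem conj_eig {L W : E ≃L[ℝ] E} {x y : E} {a w : ℝ} (hL : L y = a • x) (ha : a ≠ 0)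
    (hW : W y = w • y) : (L * W * L⁻¹) x = w • x := by
  have h1 : L⁻¹ x = a⁻¹ • y := by
    have h2 : L (a⁻¹ • y) = x := by
      rw [map_smul, hL, smul_smul, inv_mul_cancel₀ ha, one_smul]
    rw [← h2, inv_apply']
  rw [mul_app, mul_app, h1, map_smul, hW, map_smul, map_smul, hL, smul_smul, smul_smul]
  congr 1
  field_simp

/-- diagonal self-maps which fix `e` up to sign and contract (or expand) horizontally -/
theorem lemmaZd [FiniteDimensional ℝ E] (h3 : Module.finrank ℝ E = 3) {P S e : E} {F : E → ℝ}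
    (hF : Gr e F) (hP : ‖P‖ = 1)
    (hS : ‖S‖ = 1) (he : ‖e‖ = 1) (hPS : inner ℝ P S = (0 : ℝ)) (hPe : inner ℝ P e = (0 : ℝ))
    (hSe : inner ℝ S e = (0 : ℝ)) {W : E ≃L[ℝ] E} (hW : SM F W) {α β σ : ℝ}
    (hD : Dg P S e W α β σ) (hσ : |σ| = 1)
    (hab : (|α| < 1 ∧ |β| < 1) ∨ (1 < |α| ∧ 1 < |β|)) :
    ∃ k : ℝ, ∀ p, F p = inner ℝ e p + k := by
  have heP : inner ℝ e P = (0 : ℝ) := by rw [real_inner_comm]; exact hPe
  have heS : inner ℝ e S = (0 : ℝ) := by rw [real_inner_comm]; exact hSe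
  have key : ∀ v, inner ℝ e v = (0 : ℝ) → inner ℝ e (W v) = (0 : ℝ) ∧
      ‖W v‖ ^ 2 = α ^ 2 * (inner ℝ P v) ^ 2 + β ^ 2 * (inner ℝ S v) ^ 2 ∧
      ‖v‖ ^ 2 = (inner ℝ P v) ^ 2 + (inner ℝ S v) ^ 2 := by
    intro v hv
    have h1 := onb3 h3 hP hS he hPS hPe hSe v
    rw [hv, zero_smul, add_zero] at h1
    have h2 : W v = ((inner ℝ P v : ℝ) * α) • P + ((inner ℝ S v : ℝ) * β) • S := by
      conv_lhs => rw [h1]
      rw [map_add, map_smul, map_smul, hD.1, hD.2.1, smul_smul, smul_smul]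
    have hn : ∀ a b : ℝ, ‖a • P + b • S‖ ^ 2 = a ^ 2 + b ^ 2 := by
      intro a b
      rw [norm_add_sq_real, inner_smul_left, inner_smul_right, hPS, norm_smul, norm_smul, hP, hS]
      simp
    refine ⟨?_, ?_, ?_⟩
    · rw [h2, inner_add_right, inner_smul_right, inner_smul_right, heP, heS]; ring
    · rw [h2, hn]; ring
    · conv_lhs => rw [h1]
      rw [hn]
  rcases hab with ⟨ha, hb⟩ | ⟨ha, hb⟩
  · refine lemmaZ hF he hW hσ.ge (ρ := max |α| |β|) (le_max_of_le_left (abs_nonneg _))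
      (max_lt ha hb) hD.2.2 fun v hv => ⟨(key v hv).1, ?_⟩
    obtain ⟨_, k1, k2⟩ := key v hv
    have hm0 : 0 ≤ max |α| |β| := le_max_of_le_left (abs_nonneg _)
    refine le_of_sq_le_sq ?_ (by positivity)
    rw [k1, mul_pow, k2, mul_add]
    have e1 : α ^ 2 ≤ (max |α| |β|) ^ 2 := by
      rw [← sq_abs α]; exact pow_le_pow_left₀ (abs_nonneg _) (le_max_left _ _) 2
    have e2 : β ^ 2 ≤ (max |α| |β|) ^ 2 := by
      rw [← sq_abs β]; exact pow_le_pow_left₀ (abs_nonneg _) (le_max_right _ _) 2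
    gcongr
  · refine lemmaZ' hF he hW ?_ hσ.le (ρ := min |α| |β|)
      (lt_min ha hb) hD.2.2 fun v hv => ⟨(key v hv).1, ?_⟩
    · intro h0
      rw [h0, abs_zero] at hσ
      exact zero_ne_one hσ
    obtain ⟨_, k1, k2⟩ := key v hv
    have hm0 : 0 ≤ min |α| |β| := le_min (abs_nonneg _) (abs_nonneg _)
    refine le_of_sq_le_sq ?_ (norm_nonneg _)
    rw [k1, mul_pow, k2, mul_add]
    have e1 : (min |α| |β|) ^ 2 ≤ α ^ 2 := by
      rw [← sq_abs α]; exact pow_le_pow_left₀ hm0 (min_le_left _ _) 2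
    have e2 : (min |α| |β|) ^ 2 ≤ β ^ 2 := by
      rw [← sq_abs β]; exact pow_le_pow_left₀ hm0 (min_le_right _ _) 2
    gcongr

/-- words, first type -/
theorem typeA [FiniteDimensional ℝ E] (h3 : Module.finrank ℝ E = 3) {P S e : E} {F : E → ℝ}
    (hF : Gr e F) (hP : ‖P‖ = 1)
    (hS : ‖S‖ = 1) (he : ‖e‖ = 1) (hPS : inner ℝ P S = (0 : ℝ)) (hPe : inner ℝ P e = (0 : ℝ))
    (hSe : inner ℝ S e = (0 : ℝ)) {L₁ L₂ : E ≃L[ℝ] E} (h1 : SM F L₁) (h2 : SM F L₂)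
    {c ε α β γ : ℝ} (hc : 0 < c) (hc1 : c ≠ 1) (hε : ε = 1 ∨ ε = -1)
    (hα : α ≠ 0) (hβ : β ≠ 0) (hγ : γ ≠ 0)
    (a1 : L₁ P = ε • e) (a2 : L₁ e = (ε * c) • P) (a3 : L₁ S = (ε * c) • S)
    (b1 : L₂ S = α • e)
    (b2 : (L₂ e = β • S ∧ L₂ P = γ • P) ∨ (L₂ e = β • P ∧ L₂ P = γ • S)) :
    ∃ k : ℝ, ∀ p, F p = inner ℝ e p + k := by
  have hε0 : ε ≠ 0 := by rcases hε with h | h <;> rw [h] <;> norm_num
  have hε2 : ε * ε = 1 := by rcases hε with h | h <;> rw [h] <;> norm_num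
  have hεc : ε * c ≠ 0 := mul_ne_zero hε0 hc.ne'
  have d1 : Dg P S e (L₁ * L₁) c (c ^ 2) c := by
    refine ⟨?_, ?_, ?_⟩
    · rw [mul_app, a1, map_smul, a2, smul_smul, ← mul_assoc, hε2, one_mul]
    · rw [mul_app, a3, map_smul, a3, smul_smul]
      congr 1
      calc ε * c * (ε * c) = (ε * ε) * c ^ 2 := by ring
        _ = c ^ 2 := by rw [hε2, one_mul]
    · rw [mul_app, a2, map_smul, a1, smul_smul]
      congr 1
      calc ε * c * ε = (ε * ε) * c := by ring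
        _ = c := by rw [hε2, one_mul]
  have d3 : Dg P S e (L₂ * (L₁ * L₁) * L₂⁻¹) c c (c ^ 2) := by
    rcases b2 with ⟨b2, b3⟩ | ⟨b2, b3⟩
    · exact ⟨conj_eig b3 hγ d1.1, conj_eig b2 hβ d1.2.2, conj_eig b1 hα d1.2.1⟩
    · exact ⟨conj_eig b2 hβ d1.2.2, conj_eig b3 hγ d1.1, conj_eig b1 hα d1.2.1⟩
  have d4 : Dg P S e (L₁ * (L₂ * (L₁ * L₁) * L₂⁻¹) * L₁⁻¹) (c ^ 2) c c :=
    ⟨conj_eig a2 hεc d3.2.2, conj_eig a3 hεc d3.2.1, conj_eig a1 hε0 d3.1⟩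
  have hc0 := hc.ne'
  have d5 := (d4.mul d1).mul (d3.inv hc0 hc0 (pow_ne_zero 2 hc0))
  have s3 : SM F (L₂ * (L₁ * L₁) * L₂⁻¹) := (h2.mul (h1.mul h1)).mul h2.inv
  have s5 := ((((h1.mul s3).mul h1.inv).mul (h1.mul h1))).mul s3.inv
  refine lemmaZd h3 hF hP hS he hPS hPe hSe s5 d5 ?_ ?_
  · have : c * c * (c ^ 2)⁻¹ = 1 := by field_simp
    rw [this, abs_one]
  · have e1 : c ^ 2 * c * c⁻¹ = c ^ 2 := by field_simp
    have e2 : c * c ^ 2 * c⁻¹ = c ^ 2 := by field_simp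
    rw [e1, e2, abs_of_pos (by positivity)]
    rcases lt_or_gt_of_ne hc1 with h | h
    · left; constructor <;> nlinarith
    · right; constructor <;> nlinarith

/-- words, second type -/
theorem typeB [FiniteDimensional ℝ E] (h3 : Module.finrank ℝ E = 3) {P S e : E} {F : E → ℝ}
    (hF : Gr e F) (hP : ‖P‖ = 1)
    (hS : ‖S‖ = 1) (he : ‖e‖ = 1) (hPS : inner ℝ P S = (0 : ℝ)) (hPe : inner ℝ P e = (0 : ℝ))
    (hSe : inner ℝ S e = (0 : ℝ)) {L₁ L₂ : E ≃L[ℝ] E} (h1 : SM F L₁) (h2 : SM F L₂)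
    {c d ε η : ℝ} (hc : 0 < c) (hc1 : c ≠ 1) (hd : 0 < d) (hd1 : d ≠ 1)
    (hε : ε = 1 ∨ ε = -1) (hη : η = 1 ∨ η = -1)
    (a1 : L₁ P = ε • e) (a2 : L₁ e = (ε * c) • S) (a3 : L₁ S = (ε * c) • P)
    (b1 : L₂ S = η • e) (b2 : L₂ e = (η * d) • P) (b3 : L₂ P = (η * d) • S) :
    ∃ k : ℝ, ∀ p, F p = inner ℝ e p + k := by
  have hε0 : ε ≠ 0 := by rcases hε with h | h <;> rw [h] <;> norm_num
  have hη0 : η ≠ 0 := by rcases hη with h | h <;> rw [h] <;> norm_num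
  have hε2 : ε ^ 2 = 1 := by rcases hε with h | h <;> rw [h] <;> norm_num
  have hη2 : η ^ 2 = 1 := by rcases hη with h | h <;> rw [h] <;> norm_num
  have hεa : |ε| = 1 := by rcases hε with h | h <;> rw [h] <;> norm_num
  have hηa : |η| = 1 := by rcases hη with h | h <;> rw [h] <;> norm_num
  have hc0 := hc.ne'
  have hd0 := hd.ne'
  have hεc : ε * c ≠ 0 := mul_ne_zero hε0 hc0
  have dX : Dg P S e (L₁ * L₂) (ε * η * (c * d)) (ε * η * c) (ε * η * d) := by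
    refine ⟨?_, ?_, ?_⟩
    · rw [mul_app, b3, map_smul, a3, smul_smul]; congr 1; ring
    · rw [mul_app, b1, map_smul, a2, smul_smul]; congr 1; ring
    · rw [mul_app, b2, map_smul, a1, smul_smul]; congr 1; ring
  have dY : Dg P S e (L₂ * L₁) (ε * η * d) (ε * η * (c * d)) (ε * η * c) := by
    refine ⟨?_, ?_, ?_⟩
    · rw [mul_app, a1, map_smul, b2, smul_smul]; congr 1; ring
    · rw [mul_app, a3, map_smul, b3, smul_smul]; congr 1; ring
    · rw [mul_app, a2, map_smul, b1, smul_smul]; congr 1; ring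
  have dZ : Dg P S e (L₁ * (L₁ * L₂) * L₁⁻¹) (ε * η * c) (ε * η * d) (ε * η * (c * d)) :=
    ⟨conj_eig a3 hεc dX.2.1, conj_eig a2 hεc dX.2.2, conj_eig a1 hε0 dX.1⟩
  have d3 : Dg P S e (L₁ * L₁ * L₁) (ε * c ^ 2) (ε * c ^ 2) (ε * c ^ 2) := by
    have hε3 : ε * ε * ε = ε := by rw [← sq, hε2, one_mul]
    refine ⟨?_, ?_, ?_⟩
    · rw [mul_app, a1, map_smul, mul_app, a2, map_smul, a3, smul_smul, smul_smul]
      congr 1
      calc ε * (ε * c) * (ε * c) = (ε * ε * ε) * c ^ 2 := by ring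
        _ = _ := by rw [hε3]
    · rw [mul_app, a3, map_smul, mul_app, a1, map_smul, a2, smul_smul, smul_smul]
      congr 1
      calc ε * c * ε * (ε * c) = (ε * ε * ε) * c ^ 2 := by ring
        _ = _ := by rw [hε3]
    · rw [mul_app, a2, map_smul, mul_app, a3, map_smul, a1, smul_smul, smul_smul]
      congr 1
      calc ε * c * (ε * c) * ε = (ε * ε * ε) * c ^ 2 := by ring
        _ = _ := by rw [hε3]
  have hεη0 : ε * η ≠ 0 := mul_ne_zero hε0 hη0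
  have hcd0 : c * d ≠ 0 := mul_ne_zero hc0 hd0
  have sX := h1.mul h2
  have sY := h2.mul h1
  have sZ := (h1.mul sX).mul h1.inv
  have s3 := (h1.mul h1).mul h1
  have dZi := dZ.inv (mul_ne_zero hεη0 hc0) (mul_ne_zero hεη0 hd0) (mul_ne_zero hεη0 hcd0)
  have dYi := dY.inv (mul_ne_zero hεη0 hd0) (mul_ne_zero hεη0 hcd0) (mul_ne_zero hεη0 hc0)
  have dW1 := (dX.mul dY).mul dZi
  have sW1 := (sX.mul sY).mul sZ.inv
  have dW2 := ((dX.mul dYi).mul dZi).mul d3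
  have sW2 := ((sX.mul sY.inv).mul sZ.inv).mul s3
  have e1 : ε * η * (c * d) * (ε * η * d) * (ε * η * c)⁻¹ = ε * η * d ^ 2 := by field_simp
  have e2 : ε * η * c * (ε * η * (c * d)) * (ε * η * d)⁻¹ = ε * η * c ^ 2 := by field_simp
  have e3 : ε * η * d * (ε * η * c) * (ε * η * (c * d))⁻¹ = ε * η := by field_simp
  have f1 : ε * η * (c * d) * (ε * η * d)⁻¹ * (ε * η * c)⁻¹ * (ε * c ^ 2) = η * c ^ 2 * (η ^ 2)⁻¹ := by
    field_simp
  have f2 : ε * η * c * (ε * η * (c * d))⁻¹ * (ε * η * d)⁻¹ * (ε * c ^ 2) =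
      η * (c / d) ^ 2 * (η ^ 2)⁻¹ := by
    field_simp
  have f3 : ε * η * d * (ε * η * c)⁻¹ * (ε * η * (c * d))⁻¹ * (ε * c ^ 2) = η * (η ^ 2)⁻¹ := by
    field_simp
  rw [hη2, inv_one, mul_one] at f1 f2 f3
  rw [e1, e2, e3] at dW1
  rw [f1, f2, f3] at dW2
  have g1 : |ε * η * d ^ 2| = d ^ 2 := by
    rw [abs_mul, abs_mul, hεa, hηa, abs_of_pos (by positivity : 0 < d ^ 2)]; ring
  have g2 : |ε * η * c ^ 2| = c ^ 2 := by
    rw [abs_mul, abs_mul, hεa, hηa, abs_of_pos (by positivity : 0 < c ^ 2)]; ring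
  have g3 : |η * c ^ 2| = c ^ 2 := by
    rw [abs_mul, hηa, abs_of_pos (by positivity : 0 < c ^ 2)]; ring
  have g4 : |η * (c / d) ^ 2| = (c / d) ^ 2 := by
    rw [abs_mul, hηa, abs_of_pos (by positivity : 0 < (c / d) ^ 2)]; ring
  rcases lt_or_gt_of_ne hc1 with h | h <;> rcases lt_or_gt_of_ne hd1 with h' | h'
  · refine lemmaZd h3 hF hP hS he hPS hPe hSe sW1 dW1 (by rw [abs_mul, hεa, hηa, one_mul]) ?_
    left
    rw [g1, g2]
    constructor <;> nlinarith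
  · refine lemmaZd h3 hF hP hS he hPS hPe hSe sW2 dW2 hηa ?_
    left
    rw [g3, g4]
    have : c / d < 1 := (div_lt_one hd).2 (by linarith)
    have h0 : 0 < c / d := div_pos hc hd
    constructor <;> nlinarith
  · refine lemmaZd h3 hF hP hS he hPS hPe hSe sW2 dW2 hηa ?_
    right
    rw [g3, g4]
    have : 1 < c / d := (one_lt_div hd).2 (by linarith)
    constructor <;> nlinarith
  · refine lemmaZd h3 hF hP hS he hPS hPe hSe sW1 dW1 (by rw [abs_mul, hεa, hηa, one_mul]) ?_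
    right
    rw [g1, g2]
    constructor <;> nlinarith

end Pool.Helper824.HR
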