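import Pool.Agent.Helper824_hr.Gauss3
import Pool.Agent.H212R2.KLS.T1

open Set Filter Topology MeasureTheory Real
open scoped ENNReal

namespace Pool.Helper824.HR

section
variable {H : Type*} [NormedAddCommGroup H] [InnerProductSpace ℝ H] [FiniteDimensional ℝ H]
  [MeasurableSpace H] [BorelSpace H]

/-- the gaussian weight -/
noncomputable def wt (x : H) : ℝ≥0∞ := ENNReal.ofReal (exp (-‖x‖ ^ 2))

omit [InnerProductSpace ℝ H] [FiniteDimensional ℝ H] in
theorem wt_meas : Measurable (wt : H → ℝ≥0∞) := by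
  unfold wt
  fun_prop

theorem wt_fin : ∫⁻ x : H, wt x ≠ ∞ := by
  have h1 : ∫ v : H, exp (-1 * ‖v‖ ^ 2) ≠ 0 := by
    rw [GaussianFourier.integral_rexp_neg_mul_sq_norm one_pos]
    positivity
  have h2 : Integrable (fun v : H => exp (-1 * ‖v‖ ^ 2)) := by
    by_contra h
    exact h1 (integral_undef h)
  have h3 := h2.lintegral_lt_top
  refine ne_of_lt ?_
  convert h3 using 2
  ext x
  unfold wt
  congr 2
  ring

/-- the slice function -/
noncomputable def Gs (K : Set (H × ℝ)) (s : ℝ) : ℝ≥0∞ :=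
  ∫⁻ x : H, (K.indicator 1 (x, s) : ℝ≥0∞) * wt x

theorem Gs_le (K : Set (H × ℝ)) (s : ℝ) : Gs K s ≤ ∫⁻ x : H, wt x := by
  refine lintegral_mono fun x => ?_
  have : (K.indicator 1 (x, s) : ℝ≥0∞) ≤ 1 := by
    by_cases h : (x, s) ∈ K <;> simp [h]
  calc _ ≤ 1 * wt x := by gcongr
    _ = _ := one_mul _

theorem Gs_meas {K : Set (H × ℝ)} (hK : IsClosed K) : Measurable (Gs K) := by
  unfold Gs
  have h1 : Measurable (fun q : H × ℝ => (K.indicator 1 q : ℝ≥0∞) * wt q.1) :=
    (measurable_one.indicator hK.measurableSet).mul (wt_meas.comp measurable_fst)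
  exact h1.lintegral_prod_left'

theorem Gs_qc {K : Set (H × ℝ)} (hK : IsClosed K) (hadd : ∀ p ∈ K, ∀ q ∈ K, p + q ∈ K)
    (hsmul : ∀ p ∈ K, ∀ a : ℝ, 0 < a → a • p ∈ K) {s₀ s₁ t : ℝ} (ht0 : 0 < t) (ht1 : t < 1) :
    min (Gs K s₀) (Gs K s₁) ≤ Gs K ((1 - t) * s₀ + t * s₁) := by
  have hms : ∀ s : ℝ, Measurable (fun x : H => (K.indicator 1 (x, s) : ℝ≥0∞) * wt x) := by
    intro s
    refine Measurable.mul ?_ wt_meas
    exact (measurable_one.indicator hK.measurableSet).comp (measurable_id.prodMk measurable_const)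
  have t1 : 0 < 1 - t := by linarith
  have h := Pool.Agent.H212R2.KLS.PL (volume : Measure H) t ht0 ht1 _ _ _
    (hms s₀) (hms s₁) (hms ((1 - t) * s₀ + t * s₁)) (fun x y => by
      by_cases hx : (x, s₀) ∈ K
      · by_cases hy : (y, s₁) ∈ K
        · have hm : ((1 - t) • x + t • y, (1 - t) * s₀ + t * s₁) ∈ K := by
            have := hadd _ (hsmul _ hx (1 - t) t1) _ (hsmul _ hy t ht0)
            simpa using this
          rw [indicator_of_mem hx, indicator_of_mem hy, indicator_of_mem hm]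
          simp only [Pi.one_apply, one_mul]
          unfold wt
          rw [ENNReal.ofReal_rpow_of_pos (exp_pos _), ENNReal.ofReal_rpow_of_pos (exp_pos _),
            ← ENNReal.ofReal_mul (by positivity), ← exp_mul, ← exp_mul, ← exp_add]
          apply ENNReal.ofReal_le_ofReal
          apply exp_le_exp.2
          have h1 : ‖(1 - t) • x + t • y‖ ^ 2 ≤ (1 - t) * ‖x‖ ^ 2 + t * ‖y‖ ^ 2 := by
            have h2 : ‖(1 - t) • x + t • y‖ ≤ (1 - t) * ‖x‖ + t * ‖y‖ := by
              refine (norm_add_le _ _).trans ?_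
              rw [norm_smul, norm_smul, Real.norm_of_nonneg t1.le, Real.norm_of_nonneg ht0.le]
            have h3 : ‖(1 - t) • x + t • y‖ ^ 2 ≤ ((1 - t) * ‖x‖ + t * ‖y‖) ^ 2 :=
              pow_le_pow_left₀ (norm_nonneg _) h2 2
            refine h3.trans ?_
            nlinarith [mul_nonneg (mul_nonneg ht0.le t1.le) (sq_nonneg (‖x‖ - ‖y‖))]
          nlinarith
        · rw [indicator_of_notMem hy]
          simp [ENNReal.zero_rpow_of_pos ht0]
      · rw [indicator_of_notMem hx]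
        simp [ENNReal.zero_rpow_of_pos t1])
  refine le_trans ?_ h
  set m := min (Gs K s₀) (Gs K s₁) with hm
  have h1 : m = m ^ (1 - t) * m ^ t := by
    rw [← ENNReal.rpow_add_of_nonneg _ _ t1.le ht0.le]
    simp
  rw [h1]
  gcongr
  · exact min_le_left _ _
  · exact min_le_right _ _

theorem Gs_lim {K : Set (H × ℝ)} (hK : IsClosed K)
    (hsmul : ∀ p ∈ K, ∀ a : ℝ, 0 < a → a • p ∈ K) (he : ((0 : H), (1 : ℝ)) ∉ K) :
    Tendsto (Gs K) atTop (𝓝 0) := by
  have hms : ∀ s : ℝ, Measurable (fun x : H => (K.indicator 1 (x, s) : ℝ≥0∞) * wt x) := by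
    intro s
    refine Measurable.mul ?_ wt_meas
    exact (measurable_one.indicator hK.measurableSet).comp (measurable_id.prodMk measurable_const)
  have h := tendsto_lintegral_filter_of_dominated_convergence (μ := (volume : Measure H))
    (l := (atTop : Filter ℝ)) (F := fun s x => (K.indicator 1 (x, s) : ℝ≥0∞) * wt x)
    (f := fun _ => 0) wt (Eventually.of_forall fun s => hms s)
    (Eventually.of_forall fun s => Eventually.of_forall fun x => by
      have : (K.indicator 1 (x, s) : ℝ≥0∞) ≤ 1 := by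
        by_cases h : (x, s) ∈ K <;> simp [h]
      calc _ ≤ 1 * wt x := by gcongr
        _ = _ := one_mul _) wt_fin
    (Eventually.of_forall fun x => by
      refine tendsto_const_nhds.congr' ?_
      -- (x,s) ∉ K eventually
      have hev : ∀ᶠ s : ℝ in atTop, ((s⁻¹) • x, (1 : ℝ)) ∉ K := by
        have h1 : Tendsto (fun s : ℝ => ((s⁻¹) • x, (1 : ℝ))) atTop (𝓝 ((0 : H), (1 : ℝ))) := by
          refine Tendsto.prodMk_nhds ?_ tendsto_const_nhds
          have := (tendsto_inv_atTop_zero (𝕜 := ℝ)).smul_const x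
          simpa using this
        exact h1.eventually (hK.isOpen_compl.mem_nhds he)
      filter_upwards [hev, eventually_gt_atTop 0] with s hs hs0
      have : (x, s) ∉ K := by
        intro hcon
        apply hs
        have := hsmul _ hcon s⁻¹ (inv_pos.2 hs0)
        simpa [hs0.ne'] using this
      simp [this])
  rw [lintegral_zero] at h
  exact h

/-- the weighted volume of the dilated cone -/
noncomputable def Iw (K : Set (H × ℝ)) (c : ℝ) : ℝ≥0∞ :=
  ∫⁻ p : H × ℝ, (K.indicator 1 (c⁻¹ • p.1, p.2) : ℝ≥0∞) *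
    ENNReal.ofReal (exp (-(‖p.1‖ ^ 2 + p.2 ^ 2))) ∂(volume.prod volume)

theorem Iw_eq {K : Set (H × ℝ)} (hK : IsClosed K)
    (hsmul : ∀ p ∈ K, ∀ a : ℝ, 0 < a → a • p ∈ K) (h0 : ∀ p ∈ K, 0 ≤ p.2) {c : ℝ} (hc : 0 < c) :
    Iw K c = ∫⁻ s in Ioi (0 : ℝ), ENNReal.ofReal (exp (-s ^ 2)) * Gs K (c * s) := by
  unfold Iw
  rw [lintegral_prod_symm]
  · have h1 : ∀ s : ℝ, ∫⁻ x : H, (K.indicator 1 (c⁻¹ • x, s) : ℝ≥0∞) *
        ENNReal.ofReal (exp (-(‖x‖ ^ 2 + s ^ 2))) =
        ENNReal.ofReal (exp (-s ^ 2)) * Gs K (c * s) := by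
      intro s
      unfold Gs
      rw [← lintegral_const_mul]
      · refine lintegral_congr fun x => ?_
        have h2 : (K.indicator 1 (c⁻¹ • x, s) : ℝ≥0∞) = K.indicator 1 (x, c * s) := by
          by_cases h : (x, c * s) ∈ K
          · have h3 : (c⁻¹ • x, s) ∈ K := by
              have := hsmul _ h c⁻¹ (inv_pos.2 hc)
              simpa [hc.ne'] using this
            simp [h, h3]
          · have h3 : (c⁻¹ • x, s) ∉ K := by
              intro h3
              apply h
              have := hsmul _ h3 c hc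
              simpa [hc.ne'] using this
            simp [h, h3]
        rw [h2]
        unfold wt
        have h4 : exp (-(‖x‖ ^ 2 + s ^ 2)) = exp (-s ^ 2) * exp (-‖x‖ ^ 2) := by
          rw [← exp_add]; congr 1; ring
        rw [h4, ENNReal.ofReal_mul (exp_pos _).le]
        ring
      · refine Measurable.mul ?_ wt_meas
        exact (measurable_one.indicator hK.measurableSet).comp
          (measurable_id.prodMk measurable_const)
    simp_rw [h1]
    rw [← lintegral_indicator measurableSet_Ioi]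
    refine lintegral_congr_ae ?_
    have h5 : ∀ᵐ s : ℝ, s ≠ 0 := by
      simp [ae_iff, measure_singleton]
    filter_upwards [h5] with s hs
    rcases lt_or_gt_of_ne hs with h | h
    · have h6 : Gs K (c * s) = 0 := by
        unfold Gs
        have : ∀ x : H, (x, c * s) ∉ K := by
          intro x hx
          have := h0 _ hx
          simp only at this
          nlinarith [mul_neg_of_pos_of_neg hc h]
        simp [this]
      rw [h6, indicator_of_notMem (by simp [h.le])]
      simp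
    · rw [indicator_of_mem (by simpa using h)]
  · refine (Measurable.mul ?_ (by fun_prop)).aemeasurable
    refine (measurable_one.indicator hK.measurableSet).comp ?_
    exact (measurable_fst.const_smul c⁻¹).prodMk measurable_snd

theorem Iw_real {K : Set (H × ℝ)} (hK : IsClosed K)
    (hsmul : ∀ p ∈ K, ∀ a : ℝ, 0 < a → a • p ∈ K) (h0 : ∀ p ∈ K, 0 ≤ p.2) {c : ℝ} (hc : 0 < c) :
    ∫ s in Ioi (0 : ℝ), exp (-(c⁻¹ ^ 2) * s ^ 2) * (Gs K s).toReal = c * (Iw K c).toReal := by
  have hfin : ∀ s, Gs K s ≠ ∞ := fun s => ne_top_of_le_ne_top wt_fin (Gs_le K s)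
  have h1 := integral_comp_mul_left_Ioi
    (fun s => exp (-(c⁻¹ ^ 2) * s ^ 2) * (Gs K s).toReal) 0 hc
  rw [mul_zero, smul_eq_mul] at h1
  have h2 : (∫ s in Ioi (0 : ℝ), exp (-(c⁻¹ ^ 2) * (c * s) ^ 2) * (Gs K (c * s)).toReal) =
      (Iw K c).toReal := by
    rw [Iw_eq hK hsmul h0 hc]
    rw [integral_eq_lintegral_of_nonneg_ae]
    · congr 1
      refine lintegral_congr fun s => ?_
      rw [ENNReal.ofReal_mul (exp_pos _).le, ENNReal.ofReal_toReal (hfin _)]
      congr 3
      field_simp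
    · exact Eventually.of_forall fun s => by positivity
    · refine Measurable.aestronglyMeasurable ?_
      refine Measurable.mul (by fun_prop) ?_
      exact ((Gs_meas hK).comp (measurable_const_mul c)).ennreal_toReal
  rw [h2] at h1
  rw [h1]
  field_simp

theorem Iw_pos {K : Set (H × ℝ)} (hK : IsClosed K) (hint : (interior K).Nonempty) :
    0 < Iw K 1 := by
  unfold Iw
  rw [lintegral_pos_iff_support]
  · have hsub : interior K ⊆ Function.support (fun p : H × ℝ =>
        (K.indicator 1 ((1 : ℝ)⁻¹ • p.1, p.2) : ℝ≥0∞) *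
        ENNReal.ofReal (exp (-(‖p.1‖ ^ 2 + p.2 ^ 2)))) := by
      intro p hp
      have hp' : p ∈ K := interior_subset hp
      have h1 : ((1 : ℝ)⁻¹ • p.1, p.2) ∈ K := by simpa using hp'
      simp only [Function.mem_support, indicator_of_mem h1, Pi.one_apply, one_mul]
      have := exp_pos (-(‖p.1‖ ^ 2 + p.2 ^ 2))
      simpa using this
    exact (isOpen_interior.measure_pos _ hint).trans_le (measure_mono hsub)
  · refine Measurable.mul ?_ (by fun_prop)
    refine (measurable_one.indicator hK.measurableSet).comp ?_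
    exact (measurable_fst.const_smul _).prodMk measurable_snd

/-- The three point argument. -/
theorem slice_false {K : Set (H × ℝ)} (hK : IsClosed K) (hadd : ∀ p ∈ K, ∀ q ∈ K, p + q ∈ K)
    (hsmul : ∀ p ∈ K, ∀ a : ℝ, 0 < a → a • p ∈ K) (h0 : ∀ p ∈ K, 0 ≤ p.2)
    (he : ((0 : H), (1 : ℝ)) ∉ K) (hint : (interior K).Nonempty)
    {c₁ c₂ : ℝ} (hc₁ : 0 < c₁) (hc₂ : 0 < c₂) (h1 : c₁ ≠ 1) (h2 : c₂ ≠ 1) (h12 : c₁ ≠ c₂)
    (e1 : Iw K c₁ = Iw K 1) (e2 : Iw K c₂ = Iw K 1) : False := by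
  have hfin : ∀ s, Gs K s ≠ ∞ := fun s => ne_top_of_le_ne_top wt_fin (Gs_le K s)
  set g : ℝ → ℝ := fun s => (Gs K s).toReal with hg
  set V := (Iw K 1).toReal with hV
  set Gt := (∫⁻ x : H, wt x).toReal with hGt
  have hgm : Measurable g := (Gs_meas hK).ennreal_toReal
  have hg0 : ∀ s, 0 ≤ g s := fun s => ENNReal.toReal_nonneg
  have hgG : ∀ s, g s ≤ Gt := fun s => ENNReal.toReal_mono wt_fin (Gs_le K s)
  have hqc : ∀ s₀ s₁ t, 0 < s₀ → 0 < s₁ → 0 < t → t < 1 →
      min (g s₀) (g s₁) ≤ g ((1 - t) * s₀ + t * s₁) := by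
    intro s₀ s₁ t _ _ ht0 ht1
    have := Gs_qc hK hadd hsmul (s₀ := s₀) (s₁ := s₁) ht0 ht1
    have h3 := ENNReal.toReal_mono (hfin _) this
    rwa [ENNReal.toReal_min (hfin _) (hfin _)] at h3
  have hlim : Tendsto g atTop (𝓝 0) := by
    have := (ENNReal.tendsto_toReal (a := 0) (by simp)).comp (Gs_lim hK hsmul he)
    rw [ENNReal.toReal_zero] at this
    exact this
  have hIfin : Iw K 1 ≠ ∞ := by
    rw [Iw_eq hK hsmul h0 one_pos]
    have h3 : ∫⁻ s in Ioi (0 : ℝ), ENNReal.ofReal (exp (-s ^ 2)) * Gs K (1 * s) ≤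
        ∫⁻ s in Ioi (0 : ℝ), ENNReal.ofReal (exp (-s ^ 2)) * ∫⁻ x : H, wt x :=
      lintegral_mono fun s => by gcongr; exact Gs_le K _
    refine ne_top_of_le_ne_top ?_ h3
    rw [lintegral_mul_const _ (by fun_prop)]
    refine ENNReal.mul_ne_top ?_ wt_fin
    have h4 : Integrable (fun s : ℝ => exp (-1 * s ^ 2)) (volume.restrict (Ioi (0 : ℝ))) :=
      (integrable_exp_neg_mul_sq one_pos).restrict
    have h5 := h4.lintegral_lt_top
    refine ne_of_lt ?_
    convert h5 using 2
    ext x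
    congr 2
    ring
  have hVpos : 0 < V := ENNReal.toReal_pos (Iw_pos hK hint).ne' hIfin
  set k := 2 * V / √π with hk
  have hsp : 0 < √π := Real.sqrt_pos.2 pi_pos
  have hkpos : 0 < k := by positivity
  have key : ∀ c : ℝ, 0 < c → Iw K c = Iw K 1 →
      ∫ s in Ioi (0 : ℝ), exp (-(c⁻¹ ^ 2) * s ^ 2) * (g s - k) = 0 := by
    intro c hc hIc
    have h3 := Iw_real hK hsmul h0 hc
    rw [hIc] at h3
    have ha : 0 < c⁻¹ ^ 2 := by positivity
    have h4 := integral_gaussian_Ioi (c⁻¹ ^ 2)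
    have h5 : √(π / c⁻¹ ^ 2) = c * √π := by
      rw [div_eq_mul_inv, ← inv_pow, inv_inv, Real.sqrt_mul pi_pos.le, Real.sqrt_sq hc.le, mul_comm]
    rw [h5] at h4
    have h6 : Integrable (fun s => exp (-(c⁻¹ ^ 2) * s ^ 2) * g s) (volume.restrict (Ioi 0)) := by
      have := integrable_gauss g hgm 0 Gt hg0 hgG ha
      simpa using this
    have h7 : Integrable (fun s : ℝ => exp (-(c⁻¹ ^ 2) * s ^ 2)) (volume.restrict (Ioi 0)) :=
      (integrable_exp_neg_mul_sq ha).restrict
    have h8 : (fun s => exp (-(c⁻¹ ^ 2) * s ^ 2) * (g s - k)) =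
        fun s => exp (-(c⁻¹ ^ 2) * s ^ 2) * g s - exp (-(c⁻¹ ^ 2) * s ^ 2) * k := by
      funext s; ring
    rw [h8, integral_sub h6 (h7.mul_const k), integral_mul_const, h3, h4, hk]
    field_simp
    ring
  have hinv : ∀ c d : ℝ, 0 < c → 0 < d → c < d → d⁻¹ ^ 2 < c⁻¹ ^ 2 := by
    intro c d hc hd hcd
    exact pow_lt_pow_left₀ (inv_strictAnti₀ hc hcd) (by positivity) two_ne_zero
  have main : ∀ x y z : ℝ, 0 < x → x < y → y < z → Iw K x = Iw K 1 → Iw K y = Iw K 1 →
      Iw K z = Iw K 1 → False := by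
    intro x y z hx hxy hyz ex ey ez
    have hy : 0 < y := hx.trans hxy
    have hz : 0 < z := hy.trans hyz
    exact gauss3 g hgm k Gt hkpos hg0 hgG hqc hlim (by positivity) (hinv y z hy hz hyz)
      (hinv x y hx hy hxy) (key z hz ez) (key y hy ey) (key x hx ex)
  rcases lt_or_gt_of_ne h1 with a | a <;> rcases lt_or_gt_of_ne h2 with b | b <;>
    rcases lt_or_gt_of_ne h12 with d | d
  · exact main c₁ c₂ 1 hc₁ d b e1 e2 rfl
  · exact main c₂ c₁ 1 hc₂ d a e2 e1 rfl
  · exact main c₁ 1 c₂ hc₁ a b e1 rfl e2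
  · linarith
  · linarith
  · exact main c₂ 1 c₁ hc₂ b a e2 rfl e1
  · exact main 1 c₁ c₂ one_pos a d rfl e1 e2
  · exact main 1 c₂ c₁ one_pos b d rfl e2 e1

end

end Pool.Helper824.HR
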